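import Pool.Agent.Lib.MP_8a4e59_co.C.StmC

set_option autoImplicit false

/-! Basic bounds for the Bohr weight and its additive Lipschitz bound. (helper39) -/

namespace Pool.Agent.APP

open Finset

lemma be_prod_mem {ι : Type*} (s : Finset ι) (a : ι → ℝ) (h0 : ∀ i, 0 ≤ a i) (h1 : ∀ i, a i ≤ 1) :
    0 ≤ ∏ i ∈ s, a i ∧ ∏ i ∈ s, a i ≤ 1 :=
  ⟨Finset.prod_nonneg (fun i _ => h0 i), Finset.prod_le_one (fun i _ => h0 i) (fun i _ => h1 i)⟩

lemma be_one_sub {ι : Type*} (s : Finset ι) (a : ι → ℝ) (h0 : ∀ i, 0 ≤ a i) (h1 : ∀ i, a i ≤ 1) :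
    1 - ∑ i ∈ s, (1 - a i) ≤ ∏ i ∈ s, a i := by
  classical
  induction s using Finset.induction_on with
  | empty => simp
  | insert j s hj ih =>
    rw [Finset.sum_insert hj, Finset.prod_insert hj]
    obtain ⟨h2, h3⟩ := be_prod_mem s a h0 h1
    have h4 := h0 j
    have h5 := h1 j
    nlinarith [mul_nonneg (sub_nonneg.2 h5) (sub_nonneg.2 h3)]

lemma be_sub {ι : Type*} (s : Finset ι) (a b : ι → ℝ) (ha0 : ∀ i, 0 ≤ a i) (ha1 : ∀ i, a i ≤ 1)
    (hb0 : ∀ i, 0 ≤ b i) (hb1 : ∀ i, b i ≤ 1) :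
    |∏ i ∈ s, a i - ∏ i ∈ s, b i| ≤ ∑ i ∈ s, |a i - b i| := by
  classical
  induction s using Finset.induction_on with
  | empty => simp
  | insert j s hj ih =>
    rw [Finset.sum_insert hj, Finset.prod_insert hj, Finset.prod_insert hj]
    obtain ⟨h2, h3⟩ := be_prod_mem s a ha0 ha1
    have e : a j * ∏ i ∈ s, a i - b j * ∏ i ∈ s, b i =
        (a j - b j) * ∏ i ∈ s, a i + b j * (∏ i ∈ s, a i - ∏ i ∈ s, b i) := by ring
    rw [e]
    refine (abs_add_le _ _).trans ?_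
    rw [abs_mul, abs_mul, abs_of_nonneg h2, abs_of_nonneg (hb0 j)]
    have h4 : |a j - b j| * ∏ i ∈ s, a i ≤ |a j - b j| :=
      mul_le_of_le_one_right (abs_nonneg _) h3
    have h5 : b j * |∏ i ∈ s, a i - ∏ i ∈ s, b i| ≤ |∏ i ∈ s, a i - ∏ i ∈ s, b i| :=
      mul_le_of_le_one_left (abs_nonneg _) (hb1 j)
    linarith

/-- bounds for the Bohr weight -/
theorem p_bet (h : S_fej) : S_bet := by
  intro K r Th hK hr
  obtain ⟨f0, f1, f2, f3, f4⟩ := h K r hK hr
  refine ⟨fun z => ?_, fun z => ?_, fun z => ?_, fun z => ?_⟩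
  · exact (be_prod_mem Th (fun θ => fej K r (θ * z)) (fun θ => f0 _) (fun θ => f1 _)).1
  · exact (be_prod_mem Th (fun θ => fej K r (θ * z)) (fun θ => f0 _) (fun θ => f1 _)).2
  · refine le_trans ?_ (be_one_sub Th (fun θ => fej K r (θ * z)) (fun θ => f0 _) (fun θ => f1 _))
    refine sub_le_sub_left (Finset.sum_le_sum fun θ _ => ?_) _
    have h1 := f3 0 (θ * z)
    rw [f2, zero_sub, nn_neg] at h1
    exact (le_abs_self _).trans h1
  · rintro ⟨θ, hθ, hz⟩
    classical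
    have h1 := Finset.mul_prod_erase Th (fun θ => fej K r (θ * z)) hθ
    unfold bet
    rw [← h1]
    have h2 := f4 _ hz
    obtain ⟨h3, h4⟩ := be_prod_mem (Th.erase θ) (fun θ => fej K r (θ * z)) (fun θ => f0 _) (fun θ => f1 _)
    exact (mul_le_of_le_one_right (f0 _) h4).trans h2

/-- additive Lipschitz bound for the Bohr weight -/
theorem p_alip (h : S_fej) : S_alip := by
  intro K r Th hK hr z w
  obtain ⟨f0, f1, f2, f3, f4⟩ := h K r hK hr
  refine (be_sub Th (fun θ => fej K r (θ * (z + w))) (fun θ => fej K r (θ * z)) (fun θ => f0 _)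
    (fun θ => f1 _) (fun θ => f0 _) (fun θ => f1 _)).trans ?_
  refine Finset.sum_le_sum fun θ _ => ?_
  have h1 := f3 (θ * (z + w)) (θ * z)
  have e : θ * (z + w) - θ * z = θ * w := by ring
  rw [e] at h1
  exact h1

end Pool.Agent.APP
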