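import Pool.Agent.Lib.MP_8a4e59_co.C.StmC

set_option autoImplicit false

/-!
(C3) Equidistribution in residue classes. (helper37)
-/

namespace Pool.Agent.APP

open Finset

lemma equ_dvd (p : ℤ) (q : ℕ) (hq : 1 ≤ q) (h : nn ((p : ℝ) / q) < 1 / q) : (q : ℤ) ∣ p := by
  have hq0 : (0 : ℝ) < q := by exact_mod_cast hq
  set n := round ((p : ℝ) / q) with hn
  have h1 : |(p : ℝ) - n * q| < 1 := by
    have h2 : (p : ℝ) - n * q = ((p : ℝ) / q - n) * q := by field_simp
    rw [h2, abs_mul, abs_of_pos hq0]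
    have h3 : |(p : ℝ) / q - n| < 1 / q := h
    calc |(p : ℝ) / q - n| * q < 1 / q * q := by gcongr
      _ = 1 := by field_simp
  have h4 : |p - n * q| < 1 := by
    have : ((|p - n * q| : ℤ) : ℝ) < 1 := by push_cast; exact h1
    exact_mod_cast this
  have h5 : p - n * q = 0 := by
    rw [abs_lt] at h4; omega
  exact ⟨n, by linarith⟩

lemma equ_ind (e : ℕ) (he : 1 ≤ e) (y : ℤ) :
    ∑ a ∈ range e, ee ((a : ℝ) * ((y : ℝ) / e)) = if (e : ℤ) ∣ y then (e : ℂ) else 0 := by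
  have he0 : (e : ℝ) ≠ 0 := by
    have : (0 : ℝ) < e := by exact_mod_cast he
    exact this.ne'
  split_ifs with h
  · obtain ⟨k, rfl⟩ := h
    have h1 : ∀ a ∈ range e, ee ((a : ℝ) * ((((e : ℤ) * k : ℤ) : ℝ) / e)) = 1 := by
      intro a _
      have h2 : (a : ℝ) * ((((e : ℤ) * k : ℤ) : ℝ) / e) = ((a * k : ℤ) : ℝ) := by
        push_cast; field_simp
      rw [h2, ee_int]
    rw [Finset.sum_congr rfl h1]; simp
  · have h1 : ee ((y : ℝ) / e) ≠ 1 := by
      intro h2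
      have h3 := four_nn_le ((y : ℝ) / e)
      rw [h2, sub_self, norm_zero] at h3
      have h4 := nn_nonneg ((y : ℝ) / e)
      apply h
      apply equ_dvd y e he
      have : (0 : ℝ) < 1 / e := by
        have : (0 : ℝ) < e := by exact_mod_cast he
        positivity
      linarith
    have h2 : ∑ a ∈ range e, ee ((a : ℝ) * ((y : ℝ) / e)) = ∑ a ∈ range e, ee ((y : ℝ) / e) ^ a :=
      Finset.sum_congr rfl (fun a _ => ee_nat_mul a _)
    have h3 : ee ((y : ℝ) / e) ^ e = 1 := by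
      rw [← ee_nat_mul]
      have : (e : ℝ) * ((y : ℝ) / e) = (y : ℝ) := by field_simp
      rw [this, ee_int]
    rw [h2, geom_sum_eq h1, h3, sub_self, zero_div]

/-- two hits have the same denominator -/
lemma equ_unique {ζ τ : ℝ} {D e e' : ℕ} {a a' : ℤ} (_ : 0 < τ) (hD : 2 * τ * (D : ℝ) ^ 2 < 1)
    (he : 1 ≤ e) (he' : 1 ≤ e') (heD : e ≤ D) (heD' : e' ≤ D) (hg : Int.gcd a e = 1)
    (hg' : Int.gcd a' e' = 1) (h : nn (ζ - a / e) < τ) (h' : nn (ζ - a' / e') < τ) : e = e' := by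
  have e0 : (0 : ℝ) < e := by exact_mod_cast he
  have e0' : (0 : ℝ) < e' := by exact_mod_cast he'
  have hD0 : (0 : ℝ) < D := lt_of_lt_of_le e0 (by exact_mod_cast heD)
  have h1 : nn (((a * e' - a' * e : ℤ) : ℝ) / ((e * e' : ℕ) : ℝ)) < 1 / ((e * e' : ℕ) : ℝ) := by
    have h2 : ((a * e' - a' * e : ℤ) : ℝ) / ((e * e' : ℕ) : ℝ) = (ζ - a' / e') - (ζ - a / e) := by
      push_cast; field_simp; ring
    rw [h2]
    have h3 := nn_sub_le (ζ - a' / e') (ζ - a / e)
    have h4 : 2 * τ < 1 / (D : ℝ) ^ 2 := by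
      rw [lt_div_iff₀ (by positivity)]; linarith
    have h5 : 1 / (D : ℝ) ^ 2 ≤ 1 / ((e * e' : ℕ) : ℝ) := by
      apply one_div_le_one_div_of_le
      · push_cast; positivity
      · push_cast
        have : (e : ℝ) ≤ D := by exact_mod_cast heD
        have : (e' : ℝ) ≤ D := by exact_mod_cast heD'
        nlinarith
    linarith
  have h2 := equ_dvd _ _ (Nat.one_le_iff_ne_zero.2 (by positivity)) h1
  have h3 : (e : ℤ) ∣ a * e' := by
    have h4 : (e : ℤ) ∣ a * e' - a' * e := (Dvd.intro _ (by push_cast; rfl)).trans h2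
    have := dvd_add h4 (dvd_mul_left (e : ℤ) a')
    simpa using this
  have h4 : (e' : ℤ) ∣ a' * e := by
    have h5 : (e' : ℤ) ∣ a * e' - a' * e := (Dvd.intro_left _ (by push_cast; rfl)).trans h2
    have := dvd_sub (dvd_mul_left (e' : ℤ) a) h5
    simpa using this
  have h5 : (e : ℤ) ∣ e' := by
    refine IsCoprime.dvd_of_dvd_mul_left ?_ h3
    rw [Int.isCoprime_iff_gcd_eq_one, Int.gcd_comm]
    exact hg
  have h6 : (e' : ℤ) ∣ e := by
    refine IsCoprime.dvd_of_dvd_mul_left ?_ h4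
    rw [Int.isCoprime_iff_gcd_eq_one, Int.gcd_comm]
    exact hg'
  exact Nat.dvd_antisymm (by exact_mod_cast h5) (by exact_mod_cast h6)

open Classical in
/-- the denominator of the unique hit -/
noncomputable def equE (ζ τ : ℝ) (D W₀ : ℕ) : ℕ :=
  if h : ∃ e : ℕ, 2 ≤ e ∧ e ≤ D ∧ e.Coprime W₀ ∧ ∃ a : ℤ, Int.gcd a e = 1 ∧ nn (ζ - a / e) < τ then
    Classical.choose h else 0

lemma equE_spec {ζ τ : ℝ} {D W₀ e : ℕ} {a : ℤ} (hτ : 0 < τ) (hD : 2 * τ * (D : ℝ) ^ 2 < 1)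
    (he : 2 ≤ e) (heD : e ≤ D) (hc : e.Coprime W₀) (hg : Int.gcd a e = 1)
    (h : nn (ζ - a / e) < τ) : equE ζ τ D W₀ = e := by
  have hex : ∃ e : ℕ, 2 ≤ e ∧ e ≤ D ∧ e.Coprime W₀ ∧
      ∃ a : ℤ, Int.gcd a e = 1 ∧ nn (ζ - a / e) < τ := ⟨e, he, heD, hc, a, hg, h⟩
  unfold equE
  rw [dif_pos hex]
  obtain ⟨h1, h2, h3, a', h4, h5⟩ := Classical.choose_spec hex
  exact equ_unique hτ hD (by omega) (by omega) h2 heD h4 hg h5 h

/-- the bound for one exponential -/
lemma equ_one {ζ τ : ℝ} {D W₀ : ℕ} (hτ : 0 < τ) (hD : 2 * τ * (D : ℝ) ^ 2 < 1) (u : ℤ) (N e : ℕ)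
    (hu : 1 ≤ u) (he : 1 ≤ e) (heD : e ≤ D) (hc : e.Coprime W₀) :
    ∑ a ∈ (range e).erase 0, ‖∑ x ∈ Finset.Icc u (N : ℤ), ee ((x : ℝ) * (ζ + (a : ℝ) / e))‖ ≤
      (if equE ζ τ D W₀ ∣ e then (N : ℝ) else 0) + e / (2 * τ) := by
  classical
  have e0 : (0 : ℝ) < e := by exact_mod_cast he
  have hD1 : (1 : ℝ) ≤ D := le_trans (by exact_mod_cast he) (show (e : ℝ) ≤ D by exact_mod_cast heD)
  have h2τ : 2 * τ < 1 / (e : ℝ) := by
    have h4 : 2 * τ < 1 / (D : ℝ) ^ 2 := by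
      rw [lt_div_iff₀ (by positivity)]; linarith
    refine h4.trans_le ?_
    apply one_div_le_one_div_of_le e0
    have : (e : ℝ) ≤ D := by exact_mod_cast heD
    nlinarith
  have hgood : ∀ a ∈ (range e).erase 0, τ ≤ nn (ζ + (a : ℝ) / e) →
      ‖∑ x ∈ Finset.Icc u (N : ℤ), ee ((x : ℝ) * (ζ + (a : ℝ) / e))‖ ≤ 1 / (2 * τ) := by
    intro a _ h
    have h1 := norm_geom_Ico_mul_le u ((N : ℤ) + 1) (ζ + (a : ℝ) / e)
    have h2 : Finset.Ico u ((N : ℤ) + 1) = Finset.Icc u (N : ℤ) := by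
      ext x; simp only [Finset.mem_Ico, Finset.mem_Icc]; omega
    rw [h2] at h1
    rw [le_div_iff₀ (by positivity)]
    refine le_trans ?_ h1
    gcongr
  have hall : ∀ a : ℕ, ‖∑ x ∈ Finset.Icc u (N : ℤ), ee ((x : ℝ) * (ζ + (a : ℝ) / e))‖ ≤ (N : ℝ) := by
    intro a
    refine (norm_sum_le _ _).trans ?_
    simp only [norm_ee, Finset.sum_const, nsmul_eq_mul, mul_one, Int.card_Icc]
    have : ((N : ℤ) + 1 - u).toNat ≤ N := by omega
    exact_mod_cast this
  set Bd : Finset ℕ := ((range e).erase 0).filter (fun a : ℕ => nn (ζ + (a : ℝ) / e) < τ) with hBd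
  have hcard : Bd.card ≤ 1 := by
    rw [Finset.card_le_one]
    intro a ha a' ha'
    rw [hBd, Finset.mem_filter, Finset.mem_erase, Finset.mem_range] at ha ha'
    have h1 : nn ((((a : ℤ) - (a' : ℤ) : ℤ) : ℝ) / e) < 1 / e := by
      have h2 : (((a : ℤ) - (a' : ℤ) : ℤ) : ℝ) / e = (ζ + (a : ℝ) / e) - (ζ + (a' : ℝ) / e) := by
        push_cast; ring
      rw [h2]
      have h3 := nn_sub_le (ζ + (a : ℝ) / e) (ζ + (a' : ℝ) / e)
      linarith [ha.2, ha'.2]
    have h2 := equ_dvd _ _ he h1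
    obtain ⟨k, hk⟩ := h2
    have h3 : k = 0 := by
      rcases lt_trichotomy k 0 with hk0 | hk0 | hk0
      · exfalso
        have : (e : ℤ) * k ≤ -(e : ℤ) := by nlinarith
        omega
      · exact hk0
      · exfalso
        have : (e : ℤ) ≤ (e : ℤ) * k := by nlinarith
        omega
    rw [h3] at hk
    omega
  have hdvd : Bd.Nonempty → equE ζ τ D W₀ ∣ e := by
    rintro ⟨a, ha⟩
    rw [hBd, Finset.mem_filter, Finset.mem_erase, Finset.mem_range] at ha
    obtain ⟨⟨ha0, hae⟩, hn⟩ := ha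
    -- reduce the fraction `-a / e`
    set g := Nat.gcd a e with hg
    have hgpos : 0 < g := Nat.gcd_pos_of_pos_right _ (by omega)
    obtain ⟨e', he'⟩ : g ∣ e := Nat.gcd_dvd_right a e
    obtain ⟨a', ha'⟩ : g ∣ a := Nat.gcd_dvd_left a e
    have hcop : Nat.Coprime a' e' := by
      have h1 : Nat.gcd (g * a') (g * e') = g := by rw [← he', ← ha']
      rw [Nat.gcd_mul_left] at h1
      have : Nat.gcd a' e' = 1 := by
        apply Nat.eq_of_mul_eq_mul_left hgpos
        rw [h1, mul_one]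
      exact this
    have he'1 : 2 ≤ e' := by
      rcases Nat.lt_or_ge e' 2 with h1 | h1
      · exfalso
        interval_cases e'
        · omega
        · rw [mul_one] at he'
          have h2 : g ≤ a := Nat.le_of_dvd (by omega) (Nat.gcd_dvd_left a e)
          omega
      · exact h1
    have hE : equE ζ τ D W₀ = e' := by
      apply equE_spec (a := -(a' : ℤ)) hτ hD he'1
      · exact (Nat.le_of_dvd (by omega) ⟨g, by rw [he']; ring⟩).trans heD
      · exact Nat.Coprime.coprime_dvd_left ⟨g, by rw [he']; ring⟩ hc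
      · rw [Int.neg_gcd, Int.gcd_natCast_natCast]; exact hcop
      · have h1 : ζ - ((-(a' : ℤ) : ℤ) : ℝ) / e' = ζ + (a : ℝ) / e := by
          have g0 : (g : ℝ) ≠ 0 := by exact_mod_cast hgpos.ne'
          have e0' : (e' : ℝ) ≠ 0 := by
            have : e' ≠ 0 := by omega
            exact_mod_cast this
          have h2 : (a : ℝ) = g * a' := by exact_mod_cast ha'
          have h3 : (e : ℝ) = g * e' := by exact_mod_cast he'
          rw [h2, h3]
          push_cast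
          field_simp
          ring
        rw [h1]; exact hn
    rw [hE]
    exact ⟨g, by rw [he']; ring⟩
  rw [← Finset.sum_filter_add_sum_filter_not ((range e).erase 0) (fun a : ℕ => nn (ζ + (a : ℝ) / e) < τ)]
  apply add_le_add
  · rw [← hBd]
    rcases Finset.eq_empty_or_nonempty Bd with hB | hB
    · rw [hB, Finset.sum_empty]
      split_ifs <;> positivity
    · rw [if_pos (hdvd hB)]
      calc ∑ a ∈ Bd, ‖∑ x ∈ Finset.Icc u (N : ℤ), ee ((x : ℝ) * (ζ + (a : ℝ) / e))‖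
          ≤ ∑ a ∈ Bd, (N : ℝ) := Finset.sum_le_sum (fun a _ => hall a)
        _ = Bd.card * N := by simp
        _ ≤ 1 * N := by
          gcongr
          exact_mod_cast hcard
        _ = N := one_mul _
  · calc ∑ a ∈ ((range e).erase 0).filter (fun a : ℕ => ¬ nn (ζ + (a : ℝ) / e) < τ),
          ‖∑ x ∈ Finset.Icc u (N : ℤ), ee ((x : ℝ) * (ζ + (a : ℝ) / e))‖
        ≤ ∑ a ∈ ((range e).erase 0).filter (fun a : ℕ => ¬ nn (ζ + (a : ℝ) / e) < τ), 1 / (2 * τ) := by
          apply Finset.sum_le_sum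
          intro a ha
          rw [Finset.mem_filter, not_lt] at ha
          exact hgood a ha.1 ha.2
      _ = (((range e).erase 0).filter (fun a : ℕ => ¬ nn (ζ + (a : ℝ) / e) < τ)).card *
            (1 / (2 * τ)) := by simp
      _ ≤ e * (1 / (2 * τ)) := by
          gcongr
          refine (Finset.card_filter_le _ _).trans ((Finset.card_erase_le).trans ?_)
          simp
      _ = e / (2 * τ) := by ring

/-- the equidistribution bound, with the expansion of `b` only needed on the interval -/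
lemma equ_core (m : ℕ) (c ζ : Fin m → ℝ) (τ : ℝ) (D W₀ : ℕ) (hc : ∀ i, 0 ≤ c i)
    (hcs : ∑ i, c i ≤ 1) (hτ : 0 < τ) (hD : 2 * τ * (D : ℝ) ^ 2 < 1)
    (b : ℤ → ℝ) (u : ℤ) (N e : ℕ) (r : ℤ) (hu : 1 ≤ u) (he : 1 ≤ e) (heD : e ≤ D)
    (hco : e.Coprime W₀)
    (hb : ∀ x ∈ Finset.Icc u (N : ℤ), (b x : ℂ) = ∑ i, (c i : ℂ) * ee (ζ i * x)) :
    |∑ x ∈ (Finset.Icc u (N : ℤ)).filter (fun x => (e : ℤ) ∣ x - r), b x -
          (∑ x ∈ Finset.Icc u (N : ℤ), b x) / e| ≤
        (1 / (e : ℝ)) * ((N : ℝ) * ∑ i ∈ Finset.univ.filter (fun i => equE (ζ i) τ D W₀ ∣ e), c i +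
          e / (2 * τ)) := by
  classical
  have e0 : (0 : ℝ) < e := by exact_mod_cast he
  have ec0 : (e : ℂ) ≠ 0 := by exact_mod_cast e0.ne'
  set I := Finset.Icc u (N : ℤ) with hI
  -- the main identity
  have key : (((∑ x ∈ I.filter (fun x => (e : ℤ) ∣ x - r), b x) * e - ∑ x ∈ I, b x : ℝ) : ℂ) =
      ∑ a ∈ (range e).erase 0, ∑ i, (c i : ℂ) * (ee ((a : ℝ) * (-(r : ℝ) / e)) *
        ∑ x ∈ I, ee ((x : ℝ) * (ζ i + (a : ℝ) / e))) := by
    have h1 : (((∑ x ∈ I.filter (fun x => (e : ℤ) ∣ x - r), b x) * e : ℝ) : ℂ) =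
        ∑ a ∈ range e, ∑ x ∈ I, (b x : ℂ) * ee ((a : ℝ) * (((x - r : ℤ) : ℝ) / e)) := by
      rw [Finset.sum_comm]
      push_cast
      rw [Finset.sum_filter, Finset.sum_mul]
      apply Finset.sum_congr rfl
      intro x _
      have h2 := equ_ind e he (x - r)
      push_cast at h2
      rw [← Finset.mul_sum, h2]
      split_ifs <;> simp
    have h2 : (∑ x ∈ I, (b x : ℂ)) =
        ∑ x ∈ I, (b x : ℂ) * ee (((0 : ℕ) : ℝ) * (((x - r : ℤ) : ℝ) / e)) := by
      apply Finset.sum_congr rfl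
      intro x _
      simp [ee_zero]
    rw [Complex.ofReal_sub, h1, Complex.ofReal_sum, h2]
    rw [← Finset.sum_erase_add (range e) _ (Finset.mem_range.2 (by omega : 0 < e)), add_sub_cancel_right]
    apply Finset.sum_congr rfl
    intro a _
    have h3 : ∀ x ∈ I, (b x : ℂ) * ee ((a : ℝ) * (((x - r : ℤ) : ℝ) / e)) =
        ∑ i, (c i : ℂ) * (ee ((a : ℝ) * (-(r : ℝ) / e)) * ee ((x : ℝ) * (ζ i + (a : ℝ) / e))) := by
      intro x hx
      rw [hb x hx, Finset.sum_mul]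
      apply Finset.sum_congr rfl
      intro i _
      rw [mul_assoc, ← ee_add, ← ee_add]
      congr 2
      push_cast
      ring
    rw [Finset.sum_congr rfl h3, Finset.sum_comm]
    apply Finset.sum_congr rfl
    intro i _
    rw [Finset.mul_sum, Finset.mul_sum]
  have hnorm : |(∑ x ∈ I.filter (fun x => (e : ℤ) ∣ x - r), b x) * e - ∑ x ∈ I, b x| ≤
      (N : ℝ) * ∑ i ∈ Finset.univ.filter (fun i => equE (ζ i) τ D W₀ ∣ e), c i + e / (2 * τ) := by
    have h1 : |(∑ x ∈ I.filter (fun x => (e : ℤ) ∣ x - r), b x) * e - ∑ x ∈ I, b x| =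
        ‖(((∑ x ∈ I.filter (fun x => (e : ℤ) ∣ x - r), b x) * e - ∑ x ∈ I, b x : ℝ) : ℂ)‖ := by
      rw [Complex.norm_real, Real.norm_eq_abs]
    rw [h1, key]
    calc ‖∑ a ∈ (range e).erase 0, ∑ i, (c i : ℂ) * (ee ((a : ℝ) * (-(r : ℝ) / e)) *
          ∑ x ∈ I, ee ((x : ℝ) * (ζ i + (a : ℝ) / e)))‖
        ≤ ∑ a ∈ (range e).erase 0, ∑ i, c i * ‖∑ x ∈ I, ee ((x : ℝ) * (ζ i + (a : ℝ) / e))‖ := by
          refine (norm_sum_le _ _).trans (Finset.sum_le_sum fun a _ => ?_)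
          refine (norm_sum_le _ _).trans (Finset.sum_le_sum fun i _ => ?_)
          rw [norm_mul, norm_mul, norm_ee, one_mul, Complex.norm_real, Real.norm_eq_abs,
            abs_of_nonneg (hc i)]
      _ = ∑ i, c i * ∑ a ∈ (range e).erase 0,
            ‖∑ x ∈ I, ee ((x : ℝ) * (ζ i + (a : ℝ) / e))‖ := by
          rw [Finset.sum_comm]
          apply Finset.sum_congr rfl
          intro i _
          rw [Finset.mul_sum]
      _ ≤ ∑ i, c i * ((if equE (ζ i) τ D W₀ ∣ e then (N : ℝ) else 0) + e / (2 * τ)) := by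
          apply Finset.sum_le_sum
          intro i _
          apply mul_le_mul_of_nonneg_left _ (hc i)
          exact equ_one hτ hD u N e hu he heD hco
      _ = (N : ℝ) * ∑ i ∈ Finset.univ.filter (fun i => equE (ζ i) τ D W₀ ∣ e), c i +
            (∑ i, c i) * (e / (2 * τ)) := by
          rw [Finset.sum_filter, Finset.mul_sum, Finset.sum_mul, ← Finset.sum_add_distrib]
          apply Finset.sum_congr rfl
          intro i _
          split_ifs <;> ring
      _ ≤ (N : ℝ) * ∑ i ∈ Finset.univ.filter (fun i => equE (ζ i) τ D W₀ ∣ e), c i +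
            1 * (e / (2 * τ)) := by
          gcongr
      _ = _ := by rw [one_mul]
  have h2 : (∑ x ∈ I.filter (fun x => (e : ℤ) ∣ x - r), b x) - (∑ x ∈ I, b x) / e =
      (1 / (e : ℝ)) * ((∑ x ∈ I.filter (fun x => (e : ℤ) ∣ x - r), b x) * e - ∑ x ∈ I, b x) := by
    field_simp
  rw [h2, abs_mul, abs_of_pos (by positivity : (0 : ℝ) < 1 / e)]
  gcongr

theorem p_equi : S_equi := by
  classical
  intro m c ζ τ Y D W₀ hc hcs hτ hD hres
  refine ⟨fun i => equE (ζ i) τ D W₀, ?_, ?_⟩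
  · intro i
    by_cases h : ∃ e : ℕ, 2 ≤ e ∧ e ≤ D ∧ e.Coprime W₀ ∧
        ∃ a : ℤ, Int.gcd a e = 1 ∧ nn (ζ i - a / e) < τ
    · right
      obtain ⟨e, h1, h2, h3, a, h4, h5⟩ := h
      show Y < equE (ζ i) τ D W₀
      rw [equE_spec hτ hD h1 h2 h3 h4 h5]
      by_contra h6
      have := hres i e a h1 (by omega) h3 h4
      linarith
    · left
      show equE (ζ i) τ D W₀ = 0
      unfold equE
      rw [dif_neg h]
  · intro b u N e r hu he heD hco hb
    exact equ_core m c ζ τ D W₀ hc hcs hτ hD b u N e r hu he heD hco (fun x _ => hb x)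

end Pool.Agent.APP
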