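import Pool.Agent.Lib.MP_8a4e59_co.C.Stm
import Pool.Agent.Lib.MP_8a4e59_co.C.P_equi

set_option autoImplicit false

/-!
Conversions of the statements of `C/StmC.lean` to the forms of `C/Stm.lean`. (helper37)
-/

namespace Pool.Agent.APP

open Finset

theorem p_C2 (h : S_qst) : S_C2 := by
  intro Th H Y J W₀ τ hY hW hJ hτ hJY
  rcases Nat.lt_or_ge Y 2 with h1 | h1
  · refine ⟨1, le_refl _, Nat.one_le_pow _ _ hY, Nat.coprime_one_left _, ?_⟩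
    intro e he heY
    omega
  · obtain ⟨q, hq1, hq2, hq3, hq4⟩ := h Th H Y J W₀ τ h1 hW hτ hJ (by
      calc (J : ℝ) * (Y : ℝ) ^ J * τ = (J : ℝ) * τ * (Y : ℝ) ^ J := by ring
        _ < 1 := hJY)
    exact ⟨q, hq1, hq2, hq3, fun e he heY hc a ha v hv => hq4 e a v he heY hc ha hv⟩

theorem p_C3 : S_C3 := by
  classical
  intro k c ζ b N Y D m τ hc hcs hb hτ hD hres
  refine ⟨k, c, fun i => equE (ζ i) τ D m, hc, hcs, ?_, ?_⟩
  · intro i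
    by_cases h : ∃ e : ℕ, 2 ≤ e ∧ e ≤ D ∧ e.Coprime m ∧
        ∃ a : ℤ, Int.gcd a e = 1 ∧ nn (ζ i - a / e) < τ
    · right
      obtain ⟨e, h1, h2, h3, a, h4, h5⟩ := h
      show Y < equE (ζ i) τ D m
      rw [equE_spec hτ hD h1 h2 h3 h4 h5]
      by_contra h6
      have := hres i e h1 (by omega) h3 a h4
      linarith
    · left
      show equE (ζ i) τ D m = 0
      unfold equE
      rw [dif_neg h]
  · intro e he heD hco r
    have e0 : (0 : ℝ) < e := by exact_mod_cast he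
    have h1 := equ_core k c ζ τ D m hc hcs.le hτ hD b 1 N e r (le_refl _) he heD hco (by
      intro x hx
      rw [Finset.mem_Icc] at hx
      exact hb x hx.1 hx.2)
    unfold cls mass
    refine h1.trans ?_
    have h2 : (1 / (e : ℝ)) * ((N : ℝ) * ∑ i ∈ Finset.univ.filter (fun i => equE (ζ i) τ D m ∣ e), c i +
          e / (2 * τ)) =
        ((N : ℝ) / e) * ∑ i ∈ univ.filter (fun i => equE (ζ i) τ D m ∣ e), c i + 1 / (2 * τ) := by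
      field_simp
    rw [h2]
    have h3 : 1 / (2 * τ) ≤ 1 / τ := by
      apply one_div_le_one_div_of_le hτ
      linarith
    linarith

/-- (C5), the form of `S_C5` with `BY` a Bohr set and `4 q ≤ N`. -/
def S_C5q : Prop := ∀ (A : Finset ℤ) (N ρY ρ ρ₃ α fl : ℝ) (Θ : Finset ℝ) (K r q e : ℕ), 1 ≤ N →
  0 < ρY → 0 < ρ → ρ ≤ 1 / 4 → 0 < ρ₃ → 0 < α → α ≤ 1 → 0 < fl → fl ≤ 1 / 10 → 1 ≤ r → 1 ≤ q → 1 ≤ e →
  4 * (q : ℝ) ≤ N → (q : ℝ) * e ≤ N → 16 / ρ ≤ K →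
  1000 * (r * K * (Θ.card + 1)) * ρ₃ ≤ fl * α ^ 3 →
  (∀ d₀ ∈ bohr N Θ ρ,
    |∑ k ∈ bohr (N / (q * e : ℕ)) (scl (q * e) Θ) ρ₃,
        TT A 0 (bohr N Θ ρY) (d₀ + ((q * e : ℕ) : ℤ) * k) -
      α ^ 3 * ((bohr N Θ ρY).card : ℝ) * ((bohr (N / (q * e : ℕ)) (scl (q * e) Θ) ρ₃).card : ℝ)| ≤
      fl * α ^ 3 * ((bohr N Θ ρY).card : ℝ) *
        ((bohr (N / (q * e : ℕ)) (scl (q * e) Θ) ρ₃).card : ℝ)) →
  100 * (1 / 4 : ℝ) ^ r * (⌊N / q⌋₊ : ℝ) ≤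
    fl * α ^ 3 * mass (wgt K r (insert (1 / (4 * N)) Θ) q 1 ⌊N / q⌋₊) ⌊N / q⌋₊ →
  ∀ r₀ : ℤ,
  |cls (wgt K r (insert (1 / (4 * N)) Θ) q 1 ⌊N / q⌋₊) ⌊N / q⌋₊ e r₀ -
    mass (wgt K r (insert (1 / (4 * N)) Θ) q 1 ⌊N / q⌋₊) ⌊N / q⌋₊ / e| ≤
    fl * (mass (wgt K r (insert (1 / (4 * N)) Θ) q 1 ⌊N / q⌋₊) ⌊N / q⌋₊ / e) →
  |cls (fun x => wgt K r (insert (1 / (4 * N)) Θ) q 1 ⌊N / q⌋₊ x *
      TT A 0 (bohr N Θ ρY) (q * x)) ⌊N / q⌋₊ e r₀ -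
    α ^ 3 * ((bohr N Θ ρY).card : ℝ) *
      mass (wgt K r (insert (1 / (4 * N)) Θ) q 1 ⌊N / q⌋₊) ⌊N / q⌋₊ / e| ≤
    20 * fl * (α ^ 3 * ((bohr N Θ ρY).card : ℝ) *
      mass (wgt K r (insert (1 / (4 * N)) Θ) q 1 ⌊N / q⌋₊) ⌊N / q⌋₊ / e)

set_option maxHeartbeats 2000000 in
theorem p_C5q (h : S_main5) : S_C5q := by
  intro A N ρY ρ ρ₃ α fl Θ K r q e hN hρY hρ hρ4 hρ₃ hα hα1 hfl hfl1 hr hq he hqN hqeN hK hρα hflat
    hm r₀ hcls
  have q0 : (0 : ℝ) < q := by exact_mod_cast hq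
  have e0 : (0 : ℝ) < e := by exact_mod_cast he
  have e1 : (1 : ℝ) ≤ e := by exact_mod_cast he
  have r1 : (1 : ℝ) ≤ r := by exact_mod_cast hr
  have K64 : (64 : ℝ) ≤ K := by
    refine le_trans ?_ hK
    rw [le_div_iff₀ hρ]; linarith
  have K8 : 8 ≤ K := by
    have : (8 : ℝ) ≤ K := by linarith
    exact_mod_cast this
  have hKρ : 4 ≤ (K : ℝ) * ρ := by
    rw [div_le_iff₀ hρ] at hK
    linarith
  have hα3 : α ^ 3 ≤ 1 := pow_le_one₀ hα.le hα1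
  have hα30 : 0 < α ^ 3 := by positivity
  have hP : (64 : ℝ) ≤ r * K * (Θ.card + 1) := by
    have hc : (1 : ℝ) ≤ (Θ.card : ℝ) + 1 := by
      have := Nat.cast_nonneg (α := ℝ) Θ.card
      linarith
    calc (64 : ℝ) = 1 * 64 * 1 := by norm_num
      _ ≤ r * K * (Θ.card + 1) := by gcongr
  have hfla : fl * α ^ 3 ≤ 1 / 10 := by nlinarith
  have hρ₃4 : ρ₃ ≤ 1 / 4 := by
    have : 1000 * 64 * ρ₃ ≤ 1 / 10 := by
      calc 1000 * 64 * ρ₃ ≤ 1000 * (r * K * (Θ.card + 1)) * ρ₃ := by gcongr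
        _ ≤ 1 / 10 := hρα.trans hfla
    linarith
  have hpi : Real.pi ≤ 4 := Real.pi_le_four
  have h12 : 12 * Real.pi * r * K * (Θ.card + 1) * ρ₃ ≤ 1 := by
    calc 12 * Real.pi * r * K * (Θ.card + 1) * ρ₃ ≤ 12 * 4 * r * K * (Θ.card + 1) * ρ₃ := by gcongr
      _ = 48 * (r * K * ((Θ.card : ℝ) + 1) * ρ₃) := by ring
      _ ≤ 1000 * (r * K * ((Θ.card : ℝ) + 1) * ρ₃) := by
          have : 0 ≤ r * K * ((Θ.card : ℝ) + 1) * ρ₃ := by positivity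
          linarith
      _ = 1000 * (r * K * (Θ.card + 1)) * ρ₃ := by ring
      _ ≤ 1 := by linarith
  have hmain := h A 0 N ρY ρ ρ₃ α fl Θ K r q e r₀ K8 hr hq he hqN hρY hρ hKρ hρ₃ hρ₃4 h12 hα.le hα1
    hfl.le hflat
  set n₂ := ⌊N / q⌋₊ with hn₂
  set Th := insert (1 / (4 * N)) Θ with hTh
  set BYc := ((bohr N Θ ρY).card : ℝ) with hBYc
  have hBY0 : 0 ≤ BYc := Nat.cast_nonneg _
  -- the cut off weight agrees with `bet` on `[1, n₂]`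
  have hw : ∀ x ∈ Finset.Icc (1 : ℤ) (n₂ : ℤ), wgt K r Th q 1 n₂ x = bet K r Th ((q : ℝ) * x) := by
    intro x hx
    rw [Finset.mem_Icc] at hx
    unfold wgt
    rw [if_pos hx]
  have hX : cls (wgt K r Th q 1 n₂) n₂ e r₀ =
      cls (fun x => bet K r Th ((q : ℝ) * x)) n₂ e r₀ := by
    unfold cls
    apply Finset.sum_congr rfl
    intro x hx
    exact hw x (Finset.mem_filter.1 hx).1
  have hS : cls (fun x => wgt K r Th q 1 n₂ x * TT A 0 (bohr N Θ ρY) (q * x)) n₂ e r₀ =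
      ∑ x ∈ (Finset.Icc (1 : ℤ) (n₂ : ℤ)).filter (fun x => (e : ℤ) ∣ x - r₀),
        bet K r Th ((q : ℝ) * x) * TT A 0 (bohr N Θ ρY) (q * x) := by
    unfold cls
    apply Finset.sum_congr rfl
    intro x hx
    show wgt K r Th q 1 n₂ x * _ = _
    rw [hw x (Finset.mem_filter.1 hx).1]
  rw [hX] at hcls
  rw [hS]
  set M := mass (wgt K r Th q 1 n₂) n₂ with hM
  set X := cls (fun x => bet K r Th ((q : ℝ) * x)) n₂ e r₀ with hXd
  -- bounds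
  have hn1 : (1 : ℝ) ≤ n₂ := by
    have : 1 ≤ n₂ := by
      rw [hn₂]
      apply Nat.le_floor
      rw [le_div_iff₀ q0]
      push_cast
      linarith
    exact_mod_cast this
  have hen : (e : ℝ) ≤ n₂ := by
    have : e ≤ n₂ := by
      rw [hn₂]
      apply Nat.le_floor
      rw [le_div_iff₀ q0]
      linarith
    exact_mod_cast this
  have hNn : N / q ≤ n₂ + 1 := (Nat.lt_floor_add_one _).le
  have hsize : N / (q * e) + 1 ≤ 3 * n₂ / e := by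
    have h1 : N / (q * e) + 1 = (N / q + e) / e := by field_simp
    rw [h1]
    gcongr
    linarith
  have hM0 : 0 ≤ M / e := by
    have h1 : 0 ≤ fl * α ^ 3 * M := le_trans (by positivity) hm
    have h2 : 0 ≤ M := by
      by_contra h3
      rw [not_le] at h3
      have := mul_neg_of_pos_of_neg (by positivity : 0 < fl * α ^ 3) h3
      linarith
    positivity
  set Q := M / (e : ℝ) with hQ
  have h8 : 8 * (1 / 4 : ℝ) ^ r * (N / (q * e) + 1) ≤ fl * α ^ 3 * Q := by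
    calc 8 * (1 / 4 : ℝ) ^ r * (N / (q * e) + 1) ≤ 8 * (1 / 4 : ℝ) ^ r * (3 * n₂ / e) := by gcongr
      _ = (24 * (1 / 4 : ℝ) ^ r * n₂) / e := by ring
      _ ≤ (100 * (1 / 4 : ℝ) ^ r * n₂) / e := by gcongr; norm_num
      _ ≤ (fl * α ^ 3 * M) / e := by gcongr
      _ = fl * α ^ 3 * Q := by rw [hQ]; ring
  rw [abs_le] at hcls
  have hfQ : fl * Q ≤ 1 / 10 * Q := by gcongr
  have hX1 : X ≤ 2 * Q := by linarith [hcls.2]
  have hX0 : 0 ≤ X := by linarith [hcls.1]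
  have h200 : 200 * r * K * (Θ.card + 1) * ρ₃ ≤ fl * α ^ 3 := by
    have : 0 ≤ r * K * ((Θ.card : ℝ) + 1) * ρ₃ := by positivity
    calc 200 * r * K * (Θ.card + 1) * ρ₃ = 200 * (r * K * ((Θ.card : ℝ) + 1) * ρ₃) := by ring
      _ ≤ 1000 * (r * K * ((Θ.card : ℝ) + 1) * ρ₃) := by linarith
      _ = 1000 * (r * K * (Θ.card + 1)) * ρ₃ := by ring
      _ ≤ _ := hρα
  have hfin : |∑ x ∈ (Finset.Icc (1 : ℤ) (n₂ : ℤ)).filter (fun x => (e : ℤ) ∣ x - r₀),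
        bet K r Th ((q : ℝ) * x) * TT A 0 (bohr N Θ ρY) (q * x) - α ^ 3 * BYc * X| ≤
      BYc * (5 * (fl * α ^ 3 * Q)) := by
    refine hmain.trans ?_
    apply mul_le_mul_of_nonneg_left _ hBY0
    calc (fl * α ^ 3 + 200 * r * K * (Θ.card + 1) * ρ₃) * X + 8 * (1 / 4) ^ r * (N / (q * e) + 1)
        ≤ (fl * α ^ 3 + fl * α ^ 3) * (2 * Q) + fl * α ^ 3 * Q := by gcongr
      _ = 5 * (fl * α ^ 3 * Q) := by ring
  have hXQ : |α ^ 3 * BYc * X - α ^ 3 * BYc * Q| ≤ BYc * (fl * α ^ 3 * Q) := by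
    rw [← mul_sub, abs_mul, abs_of_nonneg (by positivity : 0 ≤ α ^ 3 * BYc)]
    have : |X - Q| ≤ fl * Q := abs_le.2 hcls
    calc α ^ 3 * BYc * |X - Q| ≤ α ^ 3 * BYc * (fl * Q) := by gcongr
      _ = BYc * (fl * α ^ 3 * Q) := by ring
  have e2 : α ^ 3 * BYc * M / e = α ^ 3 * BYc * Q := by rw [hQ]; ring
  rw [e2]
  have h3 := abs_sub_le (∑ x ∈ (Finset.Icc (1 : ℤ) (n₂ : ℤ)).filter (fun x => (e : ℤ) ∣ x - r₀),
        bet K r Th ((q : ℝ) * x) * TT A 0 (bohr N Θ ρY) (q * x)) (α ^ 3 * BYc * X) (α ^ 3 * BYc * Q)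
  refine h3.trans ((add_le_add hfin hXQ).trans ?_)
  have : 0 ≤ BYc * (fl * α ^ 3 * Q) := by positivity
  have e3 : 20 * fl * (α ^ 3 * BYc * Q) = 20 * (BYc * (fl * α ^ 3 * Q)) := by ring
  have e4 : BYc * (5 * (fl * α ^ 3 * Q)) = 5 * (BYc * (fl * α ^ 3 * Q)) := by ring
  rw [e3, e4]
  linarith

end Pool.Agent.APP
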