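import Pool.Agent.Lib.MP_8a4e59_co.C.StmC

set_option autoImplicit false

/-!
MP_8a4e59_co, part C: Fourier expansions of the Fejer powers and of the Bohr weight (helper99).
-/

namespace Pool.Agent.APP

open Finset

/-- expansion with an arbitrary finite index type -/
private def fex_FE (B : ℕ) (f : ℝ → ℂ) : Prop :=
  ∃ (ι : Type) (_ : Fintype ι) (c : ι → ℝ) (v : ι → ℤ), (∀ i, 0 ≤ c i) ∧ ∑ i, c i = 1 ∧
    (∀ i, |v i| ≤ B) ∧ ∀ t : ℝ, f t = ∑ i, (c i : ℂ) * ee (v i * t)

private lemma fex_mul {B B' : ℕ} {f g : ℝ → ℂ} (hf : fex_FE B f) (hg : fex_FE B' g) :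
    fex_FE (B + B') (fun t => f t * g t) := by
  obtain ⟨ι, _, c, v, h1, h2, h3, h4⟩ := hf
  obtain ⟨κ, _, d, w, k1, k2, k3, k4⟩ := hg
  refine ⟨ι × κ, inferInstance, fun p => c p.1 * d p.2, fun p => v p.1 + w p.2, ?_, ?_, ?_, ?_⟩
  · exact fun p => mul_nonneg (h1 _) (k1 _)
  · rw [Fintype.sum_prod_type]
    simp only
    rw [← sum_mul_sum, h2, k2, one_mul]
  · intro p
    refine (abs_add_le _ _).trans ?_
    push_cast
    exact add_le_add (h3 _) (k3 _)
  · intro t
    simp only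
    rw [h4, k4, sum_mul_sum, Fintype.sum_prod_type]
    refine sum_congr rfl fun i _ => sum_congr rfl fun j _ => ?_
    push_cast
    rw [add_mul, ee_add]
    ring

private lemma fex_one : fex_FE 0 (fun _ => 1) := by
  refine ⟨Unit, inferInstance, fun _ => 1, fun _ => 0, fun _ => zero_le_one, by simp, by simp, ?_⟩
  intro t
  simp [ee_zero]

private lemma fex_pow {B : ℕ} {f : ℝ → ℂ} (hf : fex_FE B f) (r : ℕ) :
    fex_FE (r * B) (fun t => f t ^ r) := by
  induction r with
  | zero => simpa using fex_one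
  | succ r ih =>
    have := fex_mul ih hf
    rw [Nat.succ_mul]
    simpa [pow_succ] using this

private lemma fex_sq (K : ℕ) (hK : 1 ≤ K) :
    fex_FE (K - 1) (fun t => ((‖(1 / (K : ℂ)) * ∑ j ∈ range K, ee (j * t)‖ ^ 2 : ℝ) : ℂ)) := by
  have hK0 : (K : ℝ) ≠ 0 := by
    have : (1 : ℝ) ≤ K := by exact_mod_cast hK
    linarith
  refine ⟨Fin K × Fin K, inferInstance, fun _ => 1 / (K : ℝ) ^ 2,
    fun p => (p.1 : ℤ) - (p.2 : ℤ), fun _ => by positivity, ?_, ?_, ?_⟩
  · rw [sum_const, card_univ, Fintype.card_prod, Fintype.card_fin, nsmul_eq_mul]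
    push_cast
    field_simp
  · rintro ⟨i, j⟩
    have hi := i.isLt
    have hj := j.isLt
    simp only
    rw [abs_le]
    constructor <;> omega
  · intro t
    have h1 : ((‖(1 / (K : ℂ)) * ∑ j ∈ range K, ee (j * t)‖ ^ 2 : ℝ) : ℂ) =
        ((1 / (K : ℂ)) * ∑ j ∈ range K, ee (j * t)) *
          (starRingEnd ℂ) ((1 / (K : ℂ)) * ∑ j ∈ range K, ee (j * t)) := by
      rw [Complex.mul_conj, Complex.normSq_eq_norm_sq]
    have h2 : ∑ j ∈ range K, ee (j * t) = ∑ j : Fin K, ee ((j : ℕ) * t) :=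
      (Fin.sum_univ_eq_sum_range (fun j : ℕ => ee (j * t)) K).symm
    simp only
    rw [h1, h2, map_mul, map_sum, Fintype.sum_prod_type]
    have h3 : (starRingEnd ℂ) (1 / (K : ℂ)) = 1 / (K : ℂ) := by
      rw [map_div₀, map_one, map_natCast]
    rw [h3]
    have h4 : (1 / (K : ℂ)) * (∑ j : Fin K, ee ((j : ℕ) * t)) *
        (1 / (K : ℂ) * ∑ k : Fin K, (starRingEnd ℂ) (ee ((k : ℕ) * t))) =
        (1 / (K : ℂ)) ^ 2 * ((∑ j : Fin K, ee ((j : ℕ) * t)) *
          ∑ k : Fin K, (starRingEnd ℂ) (ee ((k : ℕ) * t))) := by ring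
    rw [h4, sum_mul_sum, mul_sum]
    refine sum_congr rfl fun j _ => ?_
    rw [mul_sum]
    refine sum_congr rfl fun k _ => ?_
    push_cast
    rw [sub_mul, ee_sub]
    ring

/-- (C0b) Fourier expansion of one Fejer power. -/
theorem p_fexp : S_fexp := by
  intro K r hK hr
  obtain ⟨ι, _, c, v, h1, h2, h3, h4⟩ := fex_pow (fex_sq K hK) r
  refine ⟨Fintype.card ι, fun i => c ((Fintype.equivFin ι).symm i),
    fun i => v ((Fintype.equivFin ι).symm i), fun i => h1 _, ?_, fun i => h3 _, ?_⟩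
  · rw [← h2]
    exact Equiv.sum_comp (Fintype.equivFin ι).symm c
  · intro t
    have h5 : (fej K r t : ℂ) =
        ((‖(1 / (K : ℂ)) * ∑ j ∈ range K, ee (j * t)‖ ^ 2 : ℝ) : ℂ) ^ r := by
      rw [fej, pow_mul]
      push_cast
      rfl
    have h6 := h4 t
    simp only at h6
    rw [h5, h6]
    exact (Equiv.sum_comp (Fintype.equivFin ι).symm (fun i => (c i : ℂ) * ee (v i * t))).symm

/-- expansion of a product over `Th`, arbitrary finite index type -/
private lemma fex_bet (h : S_fexp) (K r : ℕ) (hK : 1 ≤ K) (hr : 1 ≤ r) (Th : Finset ℝ) :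
    ∃ (ι : Type) (_ : Fintype ι) (c : ι → ℝ) (v : ι → ℝ → ℤ), (∀ i, 0 ≤ c i) ∧ ∑ i, c i = 1 ∧
    (∀ i θ, |v i θ| ≤ (r * (K - 1) : ℕ)) ∧
    ∀ z : ℝ, (bet K r Th z : ℂ) = ∑ i, (c i : ℂ) * ee ((∑ θ ∈ Th, (v i θ : ℝ) * θ) * z) := by
  classical
  induction Th using Finset.induction_on with
  | empty =>
    refine ⟨Unit, inferInstance, fun _ => 1, fun _ _ => 0, fun _ => zero_le_one, by simp, ?_, ?_⟩
    · intro _ _
      rw [abs_zero]
      positivity
    · intro z
      simp [bet, ee_zero]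
  | insert a Th ha ih =>
    obtain ⟨κ, _, d, w, k1, k2, k3, k4⟩ := ih
    obtain ⟨m, c, v, h1, h2, h3, h4⟩ := h K r hK hr
    refine ⟨Fin m × κ, inferInstance, fun p => c p.1 * d p.2,
      fun p θ => if θ = a then v p.1 else w p.2 θ, ?_, ?_, ?_, ?_⟩
    · exact fun p => mul_nonneg (h1 _) (k1 _)
    · rw [Fintype.sum_prod_type]
      simp only
      rw [← sum_mul_sum, h2, k2, one_mul]
    · intro p θ
      simp only
      split_ifs
      · exact h3 _
      · exact k3 _ _
    · intro z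
      have hb : (bet K r (insert a Th) z : ℂ) = (fej K r (a * z) : ℂ) * (bet K r Th z : ℂ) := by
        rw [bet, prod_insert ha, bet]
        push_cast
        rfl
      rw [hb, h4, k4, sum_mul_sum, Fintype.sum_prod_type]
      refine sum_congr rfl fun i _ => sum_congr rfl fun j _ => ?_
      have hs : ∑ θ ∈ insert a Th, (((if θ = a then v i else w j θ : ℤ)) : ℝ) * θ =
          (v i : ℝ) * a + ∑ θ ∈ Th, (w j θ : ℝ) * θ := by
        rw [sum_insert ha, if_pos rfl]
        congr 1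
        refine sum_congr rfl fun θ hθ => ?_
        rw [if_neg]
        rintro rfl
        exact ha hθ
      simp only
      rw [hs, add_mul, ee_add]
      have e : (v i : ℝ) * (a * z) = (v i : ℝ) * a * z := by ring
      rw [e]
      push_cast
      ring

/-- (C0c) Fourier expansion of the Bohr weight. -/
theorem p_bexp (h : S_fexp) : S_bexp := by
  intro K r Th hK hr
  obtain ⟨ι, _, c, v, h1, h2, h3, h4⟩ := fex_bet h K r hK hr Th
  refine ⟨Fintype.card ι, fun i => c ((Fintype.equivFin ι).symm i),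
    fun i => v ((Fintype.equivFin ι).symm i), fun i => h1 _, ?_, fun i θ => h3 _ θ, ?_⟩
  · rw [← h2]
    exact Equiv.sum_comp (Fintype.equivFin ι).symm c
  · intro z
    rw [h4 z]
    exact (Equiv.sum_comp (Fintype.equivFin ι).symm
      (fun i => (c i : ℂ) * ee ((∑ θ ∈ Th, (v i θ : ℝ) * θ) * z))).symm

end Pool.Agent.APP
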