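import Pool.Agent.Lib.MP_8a4e59_co.C.P_near

set_option autoImplicit false

/-! Almost invariance of the cut off weight (C5c). (helper45) -/

namespace Pool.Agent.APP

open Finset

lemma inv_sub (F T : Finset ℤ) (g : ℤ → ℝ) (hg : ∀ x ∈ T, 0 ≤ g x) :
    ∑ x ∈ F, (if x ∈ T then g x else 0) ≤ ∑ x ∈ T, g x := by
  rw [Finset.sum_ite_mem]
  exact Finset.sum_le_sum_of_subset_of_nonneg Finset.inter_subset_right (fun x hx _ => hg x hx)

lemma inv_count (e : ℕ) (he : 1 ≤ e) (n : ℕ) (s : ℤ) :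
    (((Finset.Icc (1 : ℤ) n).filter (fun x => (e : ℤ) ∣ x - s)).card : ℝ) ≤ (n : ℝ) / e + 1 := by
  have heR : (0:ℝ) < e := by exact_mod_cast he
  have h1 : n ≤ e * (n / e + 1) := (Nat.lt_mul_div_succ n he).le
  have h2 : (Finset.Icc (1 : ℤ) n).filter (fun x => (e : ℤ) ∣ x - s) ⊆
      (Finset.Icc (1 : ℤ) (e * ((n / e + 1 : ℕ) : ℤ))).filter (fun x => (e : ℤ) ∣ x - s) := by
    apply Finset.filter_subset_filter
    apply Finset.Icc_subset_Icc le_rfl
    exact_mod_cast h1
  have h3 := nea_card e he ((n / e + 1 : ℕ) : ℤ) s (by positivity)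
  have h4 : (((Finset.Icc (1 : ℤ) n).filter (fun x => (e : ℤ) ∣ x - s)).card : ℝ) ≤
      (((Finset.Icc (1 : ℤ) (e * ((n / e + 1 : ℕ) : ℤ))).filter (fun x => (e : ℤ) ∣ x - s)).card : ℝ) := by
    exact_mod_cast Finset.card_le_card h2
  refine h4.trans (h3.trans ?_)
  rw [Int.cast_natCast, Nat.cast_add, Nat.cast_one]
  have h5 : ((n / e : ℕ) : ℝ) ≤ (n : ℝ) / e := Nat.cast_div_le
  linarith

lemma inv_nn {t : ℝ} (h0 : 0 ≤ t) (h1 : t ≤ 1 / 2) : nn t = t := by
  apply le_antisymm
  · have := nn_le_abs t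
    rwa [abs_of_nonneg h0] at this
  · unfold nn
    rcases le_or_gt (round t) 0 with h | h
    · have : ((round t : ℤ) : ℝ) ≤ 0 := by exact_mod_cast h
      rw [abs_of_nonneg (by linarith)]; linarith
    · have h2 : (1:ℝ) ≤ ((round t : ℤ) : ℝ) := by exact_mod_cast h
      rw [abs_of_nonpos (by linarith)]; linarith

/-- the weight is tiny near the right end -/
lemma inv_right (h0 : S_bet) {N : ℝ} {Θ : Finset ℝ} {K r q : ℕ} (hK : 8 ≤ K) (hr : 1 ≤ r) (hq : 1 ≤ q)
    (hN : 0 < N) {x : ℤ} (h1 : N / (2 * q) ≤ x) (h2 : (x:ℝ) ≤ N / q) :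
    bet K r (insert (1 / (4 * N)) Θ) ((q : ℝ) * x) ≤ (1 / 4) ^ r := by
  have hqR : (1:ℝ) ≤ q := by exact_mod_cast hq
  have hKR : (8:ℝ) ≤ K := by exact_mod_cast hK
  apply (h0 K r _ (by omega) hr).2.2.2
  refine ⟨1 / (4 * N), Finset.mem_insert_self _ _, ?_⟩
  rw [div_le_iff₀ (by linarith)] at h1
  rw [le_div_iff₀ (by linarith)] at h2
  have e1 : 1 / (4 * N) * ((q : ℝ) * x) = (x * q) / (4 * N) := by ring
  have h3 : 1 / 8 ≤ (x * q) / (4 * N) := by
    rw [le_div_iff₀ (by linarith)]; linarith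
  have h4 : (x * q) / (4 * N) ≤ 1 / 2 := by
    rw [div_le_iff₀ (by linarith)]; linarith
  rw [e1, inv_nn (by linarith) h4]
  nlinarith

set_option maxHeartbeats 1000000 in
/-- the case `k > 0` -/
lemma inv_pos (h : S_mlip) (h0 : S_bet) (h1 : S_near) (N ρ : ℝ) (Θ : Finset ℝ) (K r q e : ℕ) (k s : ℤ)
    (hK : 8 ≤ K) (hr : 1 ≤ r) (hq : 1 ≤ q) (he : 1 ≤ e) (hNq : 4 * (q : ℝ) ≤ N) (hρ : 0 < ρ)
    (hρ4 : ρ ≤ 1 / 4) (hρ1 : 12 * Real.pi * r * K * (Θ.card + 1) * ρ ≤ 1)
    (hkb : k ∈ bohr (N / (q * e : ℕ)) (scl (q * e) Θ) ρ) (hk : 0 < k) (S : Finset ℤ) :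
    ∑ x ∈ S.filter (fun x => (e : ℤ) ∣ x - s),
      |wgt K r (insert (1 / (4 * N)) Θ) q 1 ⌊N / q⌋₊ (x + e * k) -
        wgt K r (insert (1 / (4 * N)) Θ) q 1 ⌊N / q⌋₊ x| ≤
    200 * r * K * (Θ.card + 1) * ρ *
      cls (fun x => bet K r (insert (1 / (4 * N)) Θ) ((q : ℝ) * x)) ⌊N / q⌋₊ e s +
    4 * (1 / 4) ^ r * (N / (q * e) + 1) := by
  classical
  have hqR : (1:ℝ) ≤ q := by exact_mod_cast hq
  have heR : (1:ℝ) ≤ e := by exact_mod_cast he
  have hKR : (8:ℝ) ≤ K := by exact_mod_cast hK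
  have hK1 : 1 ≤ K := by omega
  have hrR : (1:ℝ) ≤ r := by exact_mod_cast hr
  have hN : 0 < N := by linarith
  have hkR : (0:ℝ) < k := by exact_mod_cast hk
  have hpi := Real.pi_pos
  have hnear := h1 N ρ Θ K r q e k s hK1 hr hq he hNq hρ hρ1 hk hkb
  set Th := insert (1 / (4 * N)) Θ with hTh
  have hThc : (Th.card : ℝ) ≤ Θ.card + 1 := by
    exact_mod_cast Finset.card_insert_le _ _
  have hR0 : (0:ℝ) ≤ Θ.card := Nat.cast_nonneg _
  set n := ⌊N / q⌋₊ with hn
  set Q := (1 / 4 : ℝ) ^ r with hQ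
  have hQ0 : 0 < Q := by positivity
  set b0 : ℤ → ℝ := fun x => bet K r Th ((q : ℝ) * x) with hb0
  have hb0nn : ∀ x, 0 ≤ b0 x := fun x => (h0 K r Th hK1 hr).1 _
  set X := cls b0 n e s with hX
  have hX0 : 0 ≤ X := nea_cls_nonneg h0 K r Th hK1 hr q n e s
  have hn1 : (n:ℝ) ≤ N / q := Nat.floor_le (by positivity)
  have hn2 : N / q < n + 1 := Nat.lt_floor_add_one _
  have hNq0 : 0 < N / q := by positivity
  -- size of ek
  have hekq : (q:ℝ) * (e * k) ≤ ρ * N := by
    have := (nea_shift hq he hN hρ.le hkb).1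
    have := (abs_le.1 this).2
    linarith
  have hek1 : (e:ℝ) * k ≤ (N / q) / 4 := by
    rw [le_div_iff₀ (by norm_num), le_div_iff₀ (by linarith)]
    nlinarith
  have hkle : (k:ℝ) ≤ (N / (q * e)) / 4 := by
    rw [le_div_iff₀ (by norm_num), le_div_iff₀ (by positivity)]
    nlinarith
  have heZ : (0:ℤ) < e := by exact_mod_cast he
  have hekZ : (0:ℤ) < e * k := by positivity
  set lam := 4 * Real.pi * r * K * (Θ.card + 1) * ρ with hlam
  have hlam0 : 0 ≤ lam := by positivity
  have hlam3 : lam ≤ 1 / 3 := by rw [hlam]; linarith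
  -- values of the weight
  have hw1 : ∀ x : ℤ, 1 ≤ x → x ≤ n → wgt K r Th q 1 n x = b0 x := by
    intro x hx1 hx2
    unfold wgt
    rw [if_pos ⟨hx1, hx2⟩]
  have hw0 : ∀ x : ℤ, ¬ (1 ≤ x ∧ x ≤ n) → wgt K r Th q 1 n x = 0 := by
    intro x hx
    unfold wgt
    rw [if_neg hx]
  -- Lipschitz
  have hlip : ∀ x : ℤ, |b0 (x + e * k) - b0 x| ≤ lam * (b0 x + b0 (x + e * k) + Q) := by
    intro x
    have hm := h K r Th ρ hK1 hr hρ.le ((q : ℝ) * x) (((q : ℝ) * e) * k) (nea_shift hq he hN hρ.le hkb).2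
    have e1 : (q : ℝ) * x + ((q : ℝ) * e) * k = (q : ℝ) * ((x + e * k : ℤ) : ℝ) := by
      push_cast; ring
    rw [e1] at hm
    have hA : 0 ≤ b0 x + b0 (x + e * k) + Q := by
      have := hb0nn x; have := hb0nn (x + e * k); linarith
    refine hm.trans (mul_le_mul_of_nonneg_right ?_ hA)
    rw [hlam]
    apply mul_le_mul_of_nonneg_right _ hρ.le
    exact mul_le_mul_of_nonneg_left hThc (by positivity)
  -- the three sets
  set T1 := (Finset.Icc (1 : ℤ) (n - e * k)).filter (fun x => (e : ℤ) ∣ x - s) with hT1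
  set T2 := (Finset.Icc (1 - e * k : ℤ) 0).filter (fun x => (e : ℤ) ∣ x - s) with hT2
  set T3 := (Finset.Icc (n - e * k + 1 : ℤ) n).filter (fun x => (e : ℤ) ∣ x - s) with hT3
  have hpt : ∀ x ∈ S.filter (fun x => (e : ℤ) ∣ x - s),
      |wgt K r Th q 1 n (x + e * k) - wgt K r Th q 1 n x| ≤
      (if x ∈ T1 then lam * (b0 x + b0 (x + e * k) + Q) else 0) + (if x ∈ T2 then b0 (x + e * k) else 0) +
        (if x ∈ T3 then b0 x else 0) := by
    intro x hx
    have hxs := (Finset.mem_filter.1 hx).2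
    have i1 : 0 ≤ (if x ∈ T1 then lam * (b0 x + b0 (x + e * k) + Q) else 0) := by
      split_ifs
      · have := hb0nn x; have := hb0nn (x + e * k); positivity
      · exact le_rfl
    have i2 : 0 ≤ (if x ∈ T2 then b0 (x + e * k) else 0) := by
      split_ifs
      · exact hb0nn _
      · exact le_rfl
    have i3 : 0 ≤ (if x ∈ T3 then b0 x else 0) := by
      split_ifs
      · exact hb0nn _
      · exact le_rfl
    by_cases c1 : 1 ≤ x
    · by_cases c2 : x + e * k ≤ n
      · have hxT : x ∈ T1 := by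
          rw [hT1, Finset.mem_filter, Finset.mem_Icc]; exact ⟨⟨c1, by linarith⟩, hxs⟩
        rw [hw1 x c1 (by linarith), hw1 (x + e * k) (by linarith) c2, if_pos hxT]
        have := hlip x
        linarith
      · by_cases c3 : x ≤ n
        · have hxT : x ∈ T3 := by
            rw [hT3, Finset.mem_filter, Finset.mem_Icc]; exact ⟨⟨by push Not at c2; linarith, c3⟩, hxs⟩
          rw [hw1 x c1 c3, hw0 (x + e * k) (fun hh => c2 hh.2), if_pos hxT, zero_sub, abs_neg,
            abs_of_nonneg (hb0nn x)]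
          linarith
        · rw [hw0 x (fun hh => c3 hh.2), hw0 (x + e * k) (fun hh => c2 hh.2), sub_zero, abs_zero]
          linarith
    · rw [hw0 x (fun hh => c1 hh.1)]
      by_cases c2 : 1 ≤ x + e * k ∧ x + e * k ≤ n
      · have hxT : x ∈ T2 := by
          rw [hT2, Finset.mem_filter, Finset.mem_Icc]; exact ⟨⟨by linarith [c2.1], by omega⟩, hxs⟩
        rw [hw1 (x + e * k) c2.1 c2.2, if_pos hxT, sub_zero, abs_of_nonneg (hb0nn _)]
        linarith
      · rw [hw0 (x + e * k) c2, sub_zero, abs_zero]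
        linarith
  -- sums over the three sets
  have s1 : ∑ x ∈ T1, lam * (b0 x + b0 (x + e * k) + Q) ≤ lam * (2 * X + Q * (N / (q * e) + 1)) := by
    rw [← Finset.mul_sum]
    apply mul_le_mul_of_nonneg_left _ hlam0
    rw [Finset.sum_add_distrib, Finset.sum_add_distrib, Finset.sum_const, nsmul_eq_mul]
    have a1 : ∑ x ∈ T1, b0 x ≤ X := by
      rw [hX]; unfold cls
      apply Finset.sum_le_sum_of_subset_of_nonneg
      · apply Finset.filter_subset_filter
        apply Finset.Icc_subset_Icc le_rfl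
        linarith
      · intro x _ _; exact hb0nn x
    have a2 : ∑ x ∈ T1, b0 (x + e * k) ≤ X := by
      rw [← Finset.sum_image (f := b0) (g := fun x : ℤ => x + e * k) (fun x _ y _ hxy => by
        have : x + (e:ℤ) * k = y + e * k := hxy
        linarith)]
      rw [hX]; unfold cls
      apply Finset.sum_le_sum_of_subset_of_nonneg
      · intro z hz
        obtain ⟨x, hx, rfl⟩ := Finset.mem_image.1 hz
        rw [hT1, Finset.mem_filter, Finset.mem_Icc] at hx
        rw [Finset.mem_filter, Finset.mem_Icc]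
        refine ⟨⟨by linarith [hx.1.1], by linarith [hx.1.2]⟩, ?_⟩
        have : x + (e:ℤ) * k - s = (x - s) + e * k := by ring
        rw [this]
        exact dvd_add hx.2 (dvd_mul_right _ _)
      · intro z _ _; exact hb0nn z
    have a3 : (T1.card : ℝ) ≤ N / (q * e) + 1 := by
      have b1 : T1.card ≤ ((Finset.Icc (1 : ℤ) n).filter (fun x => (e : ℤ) ∣ x - s)).card := by
        apply Finset.card_le_card
        apply Finset.filter_subset_filter
        apply Finset.Icc_subset_Icc le_rfl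
        linarith
      have b2 := inv_count e he n s
      have b3 : (T1.card : ℝ) ≤ (((Finset.Icc (1 : ℤ) n).filter (fun x => (e : ℤ) ∣ x - s)).card : ℝ) := by
        exact_mod_cast b1
      have b4 : (n:ℝ) / e ≤ N / (q * e) := by
        rw [← div_div]
        exact div_le_div_of_nonneg_right hn1 (by linarith)
      linarith
    have a4 : (T1.card : ℝ) * Q ≤ (N / (q * e) + 1) * Q := mul_le_mul_of_nonneg_right a3 hQ0.le
    linarith
  have s2 : ∑ x ∈ T2, b0 (x + e * k) ≤ 48 * Real.pi * r * K * (Θ.card + 1) * ρ * X + 2 * Q * k := by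
    refine le_trans ?_ hnear
    rw [← Finset.sum_image (f := b0) (g := fun x : ℤ => x + e * k) (fun x _ y _ hxy => by
      have : x + (e:ℤ) * k = y + e * k := hxy
      linarith)]
    apply Finset.sum_le_sum_of_subset_of_nonneg
    · intro z hz
      obtain ⟨x, hx, rfl⟩ := Finset.mem_image.1 hz
      rw [hT2, Finset.mem_filter, Finset.mem_Icc] at hx
      rw [Finset.mem_filter, Finset.mem_Icc]
      refine ⟨⟨by linarith [hx.1.1], by linarith [hx.1.2]⟩, ?_⟩
      have : x + (e:ℤ) * k - s = (x - s) + e * k := by ring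
      rw [this]
      exact dvd_add hx.2 (dvd_mul_right _ _)
    · intro z _ _; exact hb0nn z
  have s3 : ∑ x ∈ T3, b0 x ≤ k * Q := by
    have a1 : ∀ x ∈ T3, b0 x ≤ Q := by
      intro x hx
      rw [hT3, Finset.mem_filter, Finset.mem_Icc] at hx
      have c1 : ((n:ℝ) - e * k + 1) ≤ x := by exact_mod_cast hx.1.1
      have c2 : (x:ℝ) ≤ n := by exact_mod_cast hx.1.2
      apply inv_right h0 hK hr hq hN
      · have : N / (2 * q) = (N / q) / 2 := by rw [div_div, mul_comm]
        rw [this]; linarith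
      · linarith
    have a2 : (T3.card : ℝ) ≤ k := by
      have b1 : T3.card ≤ ((Finset.Icc (1 : ℤ) (e * k)).filter (fun x => (e : ℤ) ∣ x - (s - (n - e * k)))).card := by
        apply Finset.card_le_card_of_injOn (fun x : ℤ => x - (n - e * k))
        · intro x hx
          have hx' := Finset.mem_coe.1 hx
          rw [hT3, Finset.mem_filter, Finset.mem_Icc] at hx'
          apply Finset.mem_coe.2
          rw [Finset.mem_filter, Finset.mem_Icc]
          refine ⟨⟨by linarith [hx'.1.1], by linarith [hx'.1.2]⟩, ?_⟩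
          have : x - ((n:ℤ) - e * k) - (s - (n - e * k)) = x - s := by ring
          rw [this]; exact hx'.2
        · intro x _ y _ hxy
          have : x - ((n:ℤ) - e * k) = y - (n - e * k) := hxy
          linarith
      have b2 := nea_card e he k (s - (n - e * k)) hk.le
      have b3 : (T3.card : ℝ) ≤
          (((Finset.Icc (1 : ℤ) (e * k)).filter (fun x => (e : ℤ) ∣ x - (s - (n - e * k)))).card : ℝ) := by
        exact_mod_cast b1
      linarith
    calc ∑ x ∈ T3, b0 x ≤ ∑ x ∈ T3, Q := Finset.sum_le_sum a1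
      _ = T3.card * Q := by rw [Finset.sum_const, nsmul_eq_mul]
      _ ≤ k * Q := mul_le_mul_of_nonneg_right a2 hQ0.le
  -- total
  have hsum := Finset.sum_le_sum hpt
  rw [Finset.sum_add_distrib, Finset.sum_add_distrib] at hsum
  have t1 := inv_sub (S.filter (fun x => (e : ℤ) ∣ x - s)) T1 (fun x => lam * (b0 x + b0 (x + e * k) + Q))
    (fun x _ => by have := hb0nn x; have := hb0nn (x + e * k); positivity)
  have t2 := inv_sub (S.filter (fun x => (e : ℤ) ∣ x - s)) T2 (fun x => b0 (x + e * k)) (fun x _ => hb0nn _)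
  have t3 := inv_sub (S.filter (fun x => (e : ℤ) ∣ x - s)) T3 (fun x => b0 x) (fun x _ => hb0nn _)
  have htot : ∑ x ∈ S.filter (fun x => (e : ℤ) ∣ x - s),
      |wgt K r Th q 1 n (x + e * k) - wgt K r Th q 1 n x| ≤
      lam * (2 * X + Q * (N / (q * e) + 1)) + (48 * Real.pi * r * K * (Θ.card + 1) * ρ * X + 2 * Q * k) + k * Q := by
    linarith
  refine htot.trans ?_
  have u1 : lam * (Q * (N / (q * e) + 1)) ≤ 1 / 3 * (Q * (N / (q * e) + 1)) :=
    mul_le_mul_of_nonneg_right hlam3 (by positivity)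
  have u2 : (k:ℝ) * Q ≤ (N / (q * e)) / 4 * Q := mul_le_mul_of_nonneg_right hkle hQ0.le
  have u3 : 56 * Real.pi * (r * K * (Θ.card + 1) * ρ * X) ≤ 200 * (r * K * (Θ.card + 1) * ρ * X) := by
    apply mul_le_mul_of_nonneg_right _ (by positivity)
    have := Real.pi_lt_d2
    linarith
  have u4 : lam * (2 * X) + 48 * Real.pi * r * K * (Θ.card + 1) * ρ * X =
      56 * Real.pi * (r * K * (Θ.card + 1) * ρ * X) := by rw [hlam]; ring
  have u5 : 0 < N / (q * e) := by positivity
  have u6 : 0 ≤ Q * (N / (q * e)) := by positivity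
  nlinarith

theorem p_inv (h : S_mlip) (h0 : S_bet) (h1 : S_near) : S_inv := by
  intro N ρ Θ K r q e k s hK hr hq he hNq hρ hρ4 hρ1 hkb S
  classical
  rcases lt_trichotomy k 0 with hk | hk | hk
  · have hkb' : -k ∈ bohr (N / (q * e : ℕ)) (scl (q * e) Θ) ρ := neg_mem_bohr hkb
    have key := inv_pos h h0 h1 N ρ Θ K r q e (-k) s hK hr hq he hNq hρ hρ4 hρ1 hkb' (by linarith)
      (S.image (fun x => x + e * k))
    refine le_trans (le_of_eq ?_) key
    symm
    apply Finset.sum_bij (fun y _ => y + e * (-k))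
    · intro y hy
      rw [Finset.mem_filter, Finset.mem_image] at hy
      obtain ⟨⟨x, hx, rfl⟩, hd⟩ := hy
      rw [Finset.mem_filter]
      have e1 : x + (e:ℤ) * k + e * (-k) = x := by ring
      rw [e1]
      refine ⟨hx, ?_⟩
      have e2 : x - s = (x + (e:ℤ) * k - s) + e * (-k) := by ring
      rw [e2]
      exact dvd_add hd (dvd_mul_right _ _)
    · intro a _ b _ hab
      linarith
    · intro x hx
      rw [Finset.mem_filter] at hx
      refine ⟨x + e * k, ?_, by ring⟩
      rw [Finset.mem_filter]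
      refine ⟨Finset.mem_image_of_mem _ hx.1, ?_⟩
      have e2 : x + (e:ℤ) * k - s = (x - s) + e * k := by ring
      rw [e2]
      exact dvd_add hx.2 (dvd_mul_right _ _)
    · intro y _
      rw [abs_sub_comm]
      congr 3
      ring
  · subst hk
    simp only [mul_zero, add_zero, sub_self, abs_zero, Finset.sum_const_zero]
    have h2 : 0 ≤ cls (fun x => bet K r (insert (1 / (4 * N)) Θ) ((q : ℝ) * x)) ⌊N / q⌋₊ e s :=
      nea_cls_nonneg h0 K r _ (by omega) hr q _ e s
    have hN : 0 ≤ N := by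
      have : (0:ℝ) ≤ q := Nat.cast_nonneg _
      linarith
    positivity
  · exact inv_pos h h0 h1 N ρ Θ K r q e k s hK hr hq he hNq hρ hρ4 hρ1 hkb hk S

end Pool.Agent.APP
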