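import Pool.Agent.Lib.MP_8a4e59_co.C.StmC
import Pool.Agent.Lib.MP_8a4e59_co.A.StmA

set_option autoImplicit false

/-! (C1) mass of the weight. (helper21) -/

namespace Pool.Agent.APP

open Finset

theorem p_mass (h : S_bet) (h' : S_size) : S_mass := by
  classical
  intro N Θ K r q hK hr hq hbig
  have hK0 : (0 : ℝ) < K := by exact_mod_cast hK
  have hr0 : (0 : ℝ) < r := by exact_mod_cast hr
  have hq0 : (0 : ℝ) < q := by exact_mod_cast hq
  have hR0 : (0 : ℝ) ≤ (Θ.card : ℝ) := Nat.cast_nonneg _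
  set R := Θ.card with hR
  set A : ℝ := r * K * (R + 1) with hA
  have hK1 : (1 : ℝ) ≤ K := by exact_mod_cast hK
  have hr1 : (1 : ℝ) ≤ r := by exact_mod_cast hr
  have hA1 : 1 ≤ A := by
    rw [hA]
    have h1 : (1 : ℝ) ≤ r * K := by nlinarith
    nlinarith
  have hNq : 0 < N / q := by
    refine lt_of_lt_of_le ?_ hbig
    positivity
  have hN0 : 0 < N := by
    by_contra hcon
    push Not at hcon
    have : N / q ≤ 0 := div_nonpos_of_nonpos_of_nonneg hcon hq0.le
    linarith
  set P : ℝ := 40 * A with hP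
  have hP0 : 0 < P := by positivity
  have hP40 : 40 ≤ P := by rw [hP]; linarith
  set ρ : ℝ := 1 / P with hρ
  have hρ0 : 0 < ρ := by positivity
  have hρ1 : ρ ≤ 1 / 40 := by
    rw [hρ]; exact one_div_le_one_div_of_le (by norm_num) hP40
  set S := bohr (N / q) (scl q Θ) ρ with hS
  have hcard : (scl q Θ).card ≤ R := Finset.card_image_le
  have hSsize : (N / q) / (P ^ (R + 1) * 2 ^ R) ≤ (S.card : ℝ) := by
    have h1 := h' (N / q) (scl q Θ) ρ hNq hρ0 (by linarith)
    refine le_trans ?_ h1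
    have h2 : (ρ / 2) ^ R ≤ (ρ / 2) ^ (scl q Θ).card :=
      pow_le_pow_of_le_one (by positivity) (by linarith) hcard
    calc (N / q) / (P ^ (R + 1) * 2 ^ R) = ρ * (N / q) * (ρ / 2) ^ R := by
          have e1 : (ρ / 2) ^ R = 1 / (P ^ R * 2 ^ R) := by
            rw [hρ, div_div, div_pow, one_pow, mul_pow]
          rw [e1, hρ, pow_succ]
          field_simp
      _ ≤ ρ * (N / q) * (ρ / 2) ^ (scl q Θ).card := by gcongr
  have h10 : (400 * A) ^ (R + 1) = P ^ (R + 1) * 10 ^ (R + 1) := by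
    rw [← mul_pow, hP]; congr 1; ring
  have hpow1 : (2 : ℝ) ^ R * 10 ≤ 10 ^ (R + 1) := by
    rw [pow_succ]
    have : (2 : ℝ) ^ R ≤ 10 ^ R := pow_le_pow_left₀ (by norm_num) (by norm_num) R
    linarith
  have hS2 : 2 ≤ (S.card : ℝ) := by
    refine le_trans ?_ hSsize
    rw [le_div_iff₀ (by positivity)]
    refine le_trans ?_ hbig
    rw [h10]
    have h1 : P ^ (R + 1) * (2 : ℝ) ^ R ≤ P ^ (R + 1) * 10 ^ (R + 1) := by
      apply mul_le_mul_of_nonneg_left _ (by positivity)
      have : (0 : ℝ) < 2 ^ R := by positivity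
      linarith
    linarith
  set Sp := S.filter (fun x => 0 < x) with hSp
  set Sn := S.filter (fun x => x < 0) with hSn
  have hcover : S ⊆ Sp ∪ (Sn ∪ {0}) := by
    intro x hx
    rw [Finset.mem_union, Finset.mem_union, hSp, hSn, Finset.mem_filter, Finset.mem_filter,
      Finset.mem_singleton]
    rcases lt_trichotomy x 0 with h1 | h1 | h1
    · exact Or.inr (Or.inl ⟨hx, h1⟩)
    · exact Or.inr (Or.inr h1)
    · exact Or.inl ⟨hx, h1⟩
  have hneg : Sn.card ≤ Sp.card := by
    refine Finset.card_le_card_of_injOn (fun x => -x) ?_ ?_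
    · intro x hx
      rw [Finset.mem_coe, hSn, Finset.mem_filter] at hx
      rw [Finset.mem_coe, hSp, Finset.mem_filter]
      exact ⟨neg_mem_bohr hx.1, by have h5 := hx.2; show 0 < -x; omega⟩
    · intro a _ b _ hab
      simpa using hab
  have hcount : S.card ≤ 2 * Sp.card + 1 := by
    have h1 := Finset.card_le_card hcover
    have h2 := Finset.card_union_le Sp (Sn ∪ {0})
    have h3 := Finset.card_union_le Sn ({0} : Finset ℤ)
    rw [Finset.card_singleton] at h3
    omega
  have hSp4 : (S.card : ℝ) / 4 ≤ (Sp.card : ℝ) := by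
    have h1 : (S.card : ℝ) ≤ 2 * Sp.card + 1 := by exact_mod_cast hcount
    linarith
  obtain ⟨hb0, _, hb3, _⟩ := h K r (insert (1 / (4 * N)) Θ) hK hr
  have hpt : ∀ x ∈ Sp, x ∈ Finset.Icc (1 : ℤ) (⌊N / q⌋₊ : ℤ) ∧
      (1 : ℝ) / 2 ≤ bet K r (insert (1 / (4 * N)) Θ) ((q : ℝ) * x) := by
    intro x hx
    rw [hSp, Finset.mem_filter, hS, mem_bohr] at hx
    obtain ⟨⟨hx1, hx2⟩, hx0⟩ := hx
    have hx0' : (0 : ℝ) < x := by exact_mod_cast hx0
    rw [abs_of_pos hx0'] at hx1
    refine ⟨?_, ?_⟩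
    · rw [Finset.mem_Icc]
      refine ⟨by omega, ?_⟩
      have h1 : (x : ℝ) ≤ N / q := by
        refine hx1.trans ?_
        nlinarith
      have h2 : (x.toNat : ℝ) ≤ N / q := by
        have : ((x.toNat : ℤ) : ℝ) = x := by rw [Int.toNat_of_nonneg hx0.le]
        rw [← Int.cast_natCast, this]; exact h1
      have h3 := Nat.le_floor h2
      omega
    · refine le_trans ?_ (hb3 ((q : ℝ) * x))
      have hterm : ∀ θ ∈ insert (1 / (4 * N)) Θ, 7 * r * K * nn (θ * ((q : ℝ) * x)) ≤ 7 * r * K * ρ := by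
        intro θ hθ
        have hnn : nn (θ * ((q : ℝ) * x)) ≤ ρ := by
          rcases Finset.mem_insert.1 hθ with rfl | hθ
          · refine (nn_le_abs _).trans ?_
            rw [abs_of_nonneg (by positivity)]
            have h1 : 1 / (4 * N) * ((q : ℝ) * x) ≤ 1 / (4 * N) * ((q : ℝ) * (ρ * (N / q))) := by
              gcongr
            refine h1.trans ?_
            have h2 : 1 / (4 * N) * ((q : ℝ) * (ρ * (N / q))) = ρ / 4 := by
              field_simp
            rw [h2]; linarith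
          · have h1 := hx2 ((q : ℝ) * θ) (by
              unfold scl
              exact Finset.mem_image_of_mem _ hθ)
            have h2 : θ * ((q : ℝ) * x) = (q : ℝ) * θ * x := by ring
            rw [h2]; exact h1
        gcongr
      have hsum : ∑ θ ∈ insert (1 / (4 * N)) Θ, 7 * r * K * nn (θ * ((q : ℝ) * x)) ≤
          (R + 1) * (7 * r * K * ρ) := by
        refine (Finset.sum_le_sum hterm).trans ?_
        rw [Finset.sum_const, nsmul_eq_mul]
        have h1 : ((insert (1 / (4 * N)) Θ).card : ℝ) ≤ R + 1 := by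
          exact_mod_cast Finset.card_insert_le _ _
        gcongr
      have heq : (R + 1) * (7 * r * K * ρ) = 7 / 40 := by
        have h1 : (R + 1) * (7 * r * K * ρ) = 7 * A * ρ := by rw [hA]; ring
        rw [h1, hρ, hP]
        have : A ≠ 0 := by positivity
        field_simp
      rw [heq] at hsum
      linarith
  unfold mass
  have hsub : Sp ⊆ Finset.Icc (1 : ℤ) (⌊N / q⌋₊ : ℤ) := fun x hx => (hpt x hx).1
  have h1 : (Sp.card : ℝ) * (1 / 2) ≤
      ∑ x ∈ Sp, bet K r (insert (1 / (4 * N)) Θ) ((q : ℝ) * x) := by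
    rw [← nsmul_eq_mul, ← Finset.sum_const]
    exact Finset.sum_le_sum fun x hx => (hpt x hx).2
  have h2 : ∑ x ∈ Sp, bet K r (insert (1 / (4 * N)) Θ) ((q : ℝ) * x) ≤
      ∑ x ∈ Finset.Icc (1 : ℤ) (⌊N / q⌋₊ : ℤ), bet K r (insert (1 / (4 * N)) Θ) ((q : ℝ) * x) :=
    Finset.sum_le_sum_of_subset_of_nonneg hsub (fun x _ _ => hb0 _)
  refine le_trans ?_ (h1.trans h2)
  have h3 : (N / q) / (400 * A) ^ (R + 1) ≤ (N / q) / (P ^ (R + 1) * 2 ^ R) * (1 / 8) := by
    rw [h10, div_mul_div_comm, mul_one]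
    apply div_le_div_of_nonneg_left hNq.le (by positivity)
    have h4 : (2 : ℝ) ^ R * 8 ≤ 10 ^ (R + 1) := by
      have : (0 : ℝ) < 2 ^ R := by positivity
      linarith
    calc P ^ (R + 1) * 2 ^ R * 8 = P ^ (R + 1) * (2 ^ R * 8) := by ring
      _ ≤ _ := by gcongr
  linarith

end Pool.Agent.APP
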