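import Pool.Agent.Lib.MP_8a4e59_co.C.StmC

set_option autoImplicit false

namespace Pool.Agent.APP

open Finset

private noncomputable def mli_g (K : ℕ) (t : ℝ) : ℝ := ‖(1 / (K : ℂ)) * ∑ j ∈ range K, ee (j * t)‖

private lemma mli_g_nonneg (K : ℕ) (t : ℝ) : 0 ≤ mli_g K t := norm_nonneg _

private lemma mli_g_le (K : ℕ) (hK : 1 ≤ K) (t : ℝ) : mli_g K t ≤ 1 := by
  have hK0 : (0 : ℝ) < K := by exact_mod_cast hK
  unfold mli_g
  rw [norm_mul, norm_div, norm_one, Complex.norm_natCast]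
  have h1 : ‖∑ j ∈ range K, ee (j * t)‖ ≤ K := by
    refine (norm_sum_le _ _).trans ?_
    rw [Finset.sum_congr rfl (fun j _ => norm_ee _)]
    simp
  calc 1 / (K : ℝ) * ‖∑ j ∈ range K, ee (j * t)‖ ≤ 1 / (K : ℝ) * K :=
        mul_le_mul_of_nonneg_left h1 (by positivity)
    _ = 1 := by field_simp

private lemma mli_g_lip (K : ℕ) (hK : 1 ≤ K) (t t' : ℝ) :
    |mli_g K t - mli_g K t'| ≤ Real.pi * K * nn (t - t') := by
  have hK0 : (0 : ℝ) < K := by exact_mod_cast hK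
  have hpi := Real.pi_pos
  have hnn := nn_nonneg (t - t')
  unfold mli_g
  refine (abs_norm_sub_norm_le _ _).trans ?_
  rw [← mul_sub, ← Finset.sum_sub_distrib, norm_mul, norm_div, norm_one, Complex.norm_natCast]
  have h1 : ‖∑ j ∈ range K, (ee (j * t) - ee (j * t'))‖ ≤ K * (Real.pi * K * nn (t - t')) := by
    refine (norm_sum_le _ _).trans ?_
    have h2 : ∀ j ∈ range K, ‖ee (j * t) - ee (j * t')‖ ≤ (2 * Real.pi * nn (t - t')) * j := by
      intro j _
      refine (norm_ee_sub_ee_le _ _).trans ?_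
      have h3 : (j : ℝ) * t - j * t' = ((j : ℤ) : ℝ) * (t - t') := by push_cast; ring
      rw [h3]
      have h4 := nn_int_mul_le (j : ℤ) (t - t')
      have h5 : |((j : ℤ) : ℝ)| = j := by push_cast; exact abs_of_nonneg (Nat.cast_nonneg j)
      rw [h5] at h4
      calc 2 * Real.pi * nn (((j : ℤ) : ℝ) * (t - t')) ≤ 2 * Real.pi * (j * nn (t - t')) :=
            mul_le_mul_of_nonneg_left h4 (by positivity)
        _ = (2 * Real.pi * nn (t - t')) * j := by ring
    refine (Finset.sum_le_sum h2).trans ?_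
    rw [← Finset.mul_sum]
    have h6 : (∑ j ∈ range K, (j : ℝ)) * 2 ≤ (K : ℝ) * K := by
      have h7 := Finset.sum_range_id_mul_two K
      have h8 : (∑ j ∈ range K, (j : ℝ)) * 2 = ((K * (K - 1) : ℕ) : ℝ) := by
        rw [← h7]; push_cast; ring
      rw [h8]
      have : K * (K - 1) ≤ K * K := Nat.mul_le_mul_left _ (by omega)
      exact_mod_cast this
    calc 2 * Real.pi * nn (t - t') * ∑ j ∈ range K, (j : ℝ)
        = (Real.pi * nn (t - t')) * ((∑ j ∈ range K, (j : ℝ)) * 2) := by ring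
      _ ≤ (Real.pi * nn (t - t')) * (K * K) := mul_le_mul_of_nonneg_left h6 (by positivity)
      _ = K * (Real.pi * K * nn (t - t')) := by ring
  calc 1 / (K : ℝ) * ‖∑ j ∈ range K, (ee (j * t) - ee (j * t'))‖
      ≤ 1 / (K : ℝ) * (K * (Real.pi * K * nn (t - t'))) :=
        mul_le_mul_of_nonneg_left h1 (by positivity)
    _ = Real.pi * K * nn (t - t') := by field_simp

private lemma mli_prod (s : Finset ℝ) (a b : ℝ → ℝ) (ha : ∀ i ∈ s, 0 ≤ a i ∧ a i ≤ 1)
    (hb : ∀ i ∈ s, 0 ≤ b i ∧ b i ≤ 1) :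
    |∏ i ∈ s, a i - ∏ i ∈ s, b i| ≤ ∑ i ∈ s, |a i - b i| := by
  induction s using Finset.induction_on with
  | empty => simp
  | insert x s hx ih =>
    rw [Finset.prod_insert hx, Finset.prod_insert hx, Finset.sum_insert hx]
    have ih' := ih (fun i hi => ha i (Finset.mem_insert_of_mem hi))
      (fun i hi => hb i (Finset.mem_insert_of_mem hi))
    have hP : |∏ i ∈ s, a i| ≤ 1 := by
      rw [abs_of_nonneg (Finset.prod_nonneg fun i hi => (ha i (Finset.mem_insert_of_mem hi)).1)]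
      exact Finset.prod_le_one (fun i hi => (ha i (Finset.mem_insert_of_mem hi)).1)
        (fun i hi => (ha i (Finset.mem_insert_of_mem hi)).2)
    have hbx : |b x| ≤ 1 := by
      have := hb x (Finset.mem_insert_self _ _)
      rw [abs_of_nonneg this.1]; exact this.2
    have e1 : a x * ∏ i ∈ s, a i - b x * ∏ i ∈ s, b i =
        (a x - b x) * ∏ i ∈ s, a i + b x * (∏ i ∈ s, a i - ∏ i ∈ s, b i) := by ring
    rw [e1]
    refine (abs_add_le _ _).trans ?_
    rw [abs_mul, abs_mul]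
    have h1 : |a x - b x| * |∏ i ∈ s, a i| ≤ |a x - b x| * 1 :=
      mul_le_mul_of_nonneg_left hP (abs_nonneg _)
    have h2 : |b x| * |∏ i ∈ s, a i - ∏ i ∈ s, b i| ≤ 1 * |∏ i ∈ s, a i - ∏ i ∈ s, b i| :=
      mul_le_mul_of_nonneg_right hbx (abs_nonneg _)
    linarith

private noncomputable def mli_G (K : ℕ) (Th : Finset ℝ) (z : ℝ) : ℝ := ∏ θ ∈ Th, mli_g K (θ * z)

private lemma mli_bet (K r : ℕ) (Th : Finset ℝ) (z : ℝ) : bet K r Th z = mli_G K Th z ^ (2 * r) := by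
  unfold bet mli_G fej
  rw [← Finset.prod_pow]
  rfl

theorem p_mlip : S_mlip := by
  intro K r Th ρ hK hr hρ z w hw
  have hpi := Real.pi_pos
  have hK0 : (0 : ℝ) < K := by exact_mod_cast hK
  have hr0 : (0 : ℝ) < r := by exact_mod_cast hr
  have hG0 : ∀ x, 0 ≤ mli_G K Th x := fun x => Finset.prod_nonneg fun _ _ => mli_g_nonneg _ _
  have hdiff : |mli_G K Th (z + w) - mli_G K Th z| ≤ Real.pi * K * Th.card * ρ := by
    unfold mli_G
    refine (mli_prod Th _ _ (fun θ _ => ⟨mli_g_nonneg _ _, mli_g_le K hK _⟩)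
      (fun θ _ => ⟨mli_g_nonneg _ _, mli_g_le K hK _⟩)).trans ?_
    have h1 : ∀ θ ∈ Th, |mli_g K (θ * (z + w)) - mli_g K (θ * z)| ≤ Real.pi * K * ρ := by
      intro θ hθ
      refine (mli_g_lip K hK _ _).trans ?_
      have e1 : θ * (z + w) - θ * z = θ * w := by ring
      rw [e1]
      exact mul_le_mul_of_nonneg_left (hw θ hθ) (by positivity)
    refine (Finset.sum_le_sum h1).trans_eq ?_
    rw [Finset.sum_const, nsmul_eq_mul]; ring
  rw [mli_bet, mli_bet]
  set s := mli_G K Th (z + w) with hs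
  set s' := mli_G K Th z with hs'
  have hs0 : 0 ≤ s := hG0 _
  have hs0' : 0 ≤ s' := hG0 _
  have h1 := abs_pow_sub_pow_le s s' (2 * r)
  rw [abs_of_nonneg hs0, abs_of_nonneg hs0'] at h1
  set M := max s s' with hM
  have hM0 : 0 ≤ M := le_max_of_le_left hs0
  have hM1 : M ^ (2 * r) ≤ s' ^ (2 * r) + s ^ (2 * r) := by
    rcases max_cases s s' with ⟨h2, _⟩ | ⟨h2, _⟩
    · rw [hM, h2]; have : 0 ≤ s' ^ (2 * r) := by positivity
      linarith
    · rw [hM, h2]; have : 0 ≤ s ^ (2 * r) := by positivity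
      linarith
  have hM2 : M ^ (2 * r - 1) ≤ 2 * M ^ (2 * r) + 2 * (1 / 4) ^ r := by
    obtain ⟨d, hd⟩ : ∃ d, 2 * r = d + 1 := ⟨2 * r - 1, by omega⟩
    rw [hd, Nat.add_sub_cancel]
    rcases le_total (1 / 2) M with h2 | h2
    · have h3 : M ^ d * (1 / 2) ≤ M ^ (d + 1) := by
        rw [pow_succ]; exact mul_le_mul_of_nonneg_left h2 (by positivity)
      have h4 : (0 : ℝ) ≤ (1 / 4) ^ r := by positivity
      linarith
    · have h3 : M ^ d ≤ (1 / 2) ^ d := pow_le_pow_left₀ hM0 h2 d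
      have h4 : (2 : ℝ) * (1 / 4) ^ r = (1 / 2) ^ d := by
        have h5 : ((1 : ℝ) / 4) ^ r = (1 / 2) ^ (2 * r) := by
          rw [pow_mul]; norm_num
        rw [h5, hd, pow_succ]; ring
      have h6 : 0 ≤ M ^ (d + 1) := by positivity
      linarith
  have hM3 : 0 ≤ M ^ (2 * r - 1) := by positivity
  calc |s ^ (2 * r) - s' ^ (2 * r)| ≤ |s - s'| * ((2 * r : ℕ) : ℝ) * M ^ (2 * r - 1) := h1
    _ ≤ (Real.pi * K * Th.card * ρ) * ((2 * r : ℕ) : ℝ) * M ^ (2 * r - 1) := by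
        apply mul_le_mul_of_nonneg_right _ hM3
        exact mul_le_mul_of_nonneg_right hdiff (by positivity)
    _ ≤ (Real.pi * K * Th.card * ρ) * ((2 * r : ℕ) : ℝ) *
        (2 * (s' ^ (2 * r) + s ^ (2 * r)) + 2 * (1 / 4) ^ r) := by
        apply mul_le_mul_of_nonneg_left _ (by positivity)
        linarith
    _ = (4 * Real.pi * r * K * Th.card * ρ) * (s' ^ (2 * r) + s ^ (2 * r) + (1 / 4) ^ r) := by
        push_cast; ring

end Pool.Agent.APP
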