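import Pool.Agent.Lib.MP_8a4e59_co.C.StmC
import Pool.Agent.Lib.MP_8a4e59_co.A.Basic

set_option autoImplicit false

/-! Mass of the weight near zero (C5b). (helper45) -/

namespace Pool.Agent.APP

open Finset

/-- number of elements of a residue class in an interval of length `e k` -/
lemma nea_card (e : ℕ) (he : 1 ≤ e) (k s : ℤ) (hk : 0 ≤ k) :
    (((Finset.Icc (1 : ℤ) (e * k)).filter (fun x => (e : ℤ) ∣ x - s)).card : ℝ) ≤ k := by
  have he' : (0 : ℤ) < e := by exact_mod_cast he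
  have h : ((Finset.Icc (1 : ℤ) (e * k)).filter (fun x => (e : ℤ) ∣ x - s)).card ≤
      (Finset.Ico (0:ℤ) k).card := by
    apply Finset.card_le_card_of_injOn (fun x : ℤ => (x - 1) / (e : ℤ))
    · intro x hx
      have hx' := Finset.mem_filter.1 hx
      have h1 := Finset.mem_Icc.1 hx'.1
      apply Finset.mem_coe.2
      rw [Finset.mem_Ico]
      refine ⟨Int.ediv_nonneg (by omega) he'.le, ?_⟩
      apply Int.ediv_lt_of_lt_mul he'
      nlinarith
    · intro x hx y hy hxy
      have hx' := (Finset.mem_filter.1 hx).2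
      have hy' := (Finset.mem_filter.1 hy).2
      have hd : (e : ℤ) ∣ x - y := by
        have := dvd_sub hx' hy'
        have e1 : x - s - (y - s) = x - y := by ring
        rwa [e1] at this
      obtain ⟨c, hc⟩ := hd
      have h1 := Int.mul_ediv_add_emod (x - 1) e
      have h2 := Int.mul_ediv_add_emod (y - 1) e
      have h3 := Int.emod_nonneg (x - 1) he'.ne'
      have h4 := Int.emod_lt_of_pos (x - 1) he'
      have h5 := Int.emod_nonneg (y - 1) he'.ne'
      have h6 := Int.emod_lt_of_pos (y - 1) he'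
      have hxy' : (x - 1) / (e:ℤ) = (y - 1) / (e:ℤ) := hxy
      rw [hxy'] at h1
      have h7 : x - y = (x - 1) % e - (y - 1) % e := by linarith
      have h8 : x - y < e := by linarith
      have h9 : -(e:ℤ) < x - y := by linarith
      have h10 : c < 1 := by
        by_contra hcc
        push Not at hcc
        nlinarith
      have h11 : -1 < c := by
        by_contra hcc
        push Not at hcc
        nlinarith
      have h12 : c = 0 := by omega
      rw [h12, mul_zero] at hc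
      omega
  rw [Int.card_Ico] at h
  have h2 : (((k - 0).toNat : ℕ) : ℝ) = k := by
    have : (((k - 0).toNat : ℕ) : ℤ) = k := by rw [Int.toNat_of_nonneg (by omega)]; ring
    exact_mod_cast this
  calc _ ≤ (((k - 0).toNat : ℕ) : ℝ) := by exact_mod_cast h
    _ = k := h2

/-- the shift `w = q e k` satisfies `nn (θ w) ≤ ρ` for all `θ` in `insert (1/(4N)) Θ` -/
lemma nea_shift {N ρ : ℝ} {Θ : Finset ℝ} {q e : ℕ} {k : ℤ} (hq : 1 ≤ q) (he : 1 ≤ e) (hN : 0 < N)
    (hρ : 0 ≤ ρ) (hk : k ∈ bohr (N / (q * e : ℕ)) (scl (q * e) Θ) ρ) :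
    |(((q : ℝ) * e) * k)| ≤ ρ * N ∧
    ∀ θ ∈ insert (1 / (4 * N)) Θ, nn (θ * (((q : ℝ) * e) * k)) ≤ ρ := by
  have hqe : (0:ℝ) < ((q * e : ℕ) : ℝ) := by exact_mod_cast Nat.mul_pos hq he
  rw [mem_bohr] at hk
  have h1 : |(((q : ℝ) * e) * k)| ≤ ρ * N := by
    have h2 := hk.1
    rw [← mul_div_assoc, le_div_iff₀ hqe] at h2
    rw [abs_mul]
    have h3 : |(q : ℝ) * e| = ((q * e : ℕ) : ℝ) := by
      push_cast
      exact abs_of_nonneg (by positivity)
    rw [h3, mul_comm]; exact h2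
  refine ⟨h1, ?_⟩
  intro θ hθ
  rw [Finset.mem_insert] at hθ
  rcases hθ with rfl | hθ
  · refine (nn_le_abs _).trans ?_
    rw [abs_mul, abs_of_pos (by positivity : (0:ℝ) < 1 / (4 * N))]
    have h4 : 1 / (4 * N) * |(((q : ℝ) * e) * k)| ≤ 1 / (4 * N) * (ρ * N) :=
      mul_le_mul_of_nonneg_left h1 (by positivity)
    refine h4.trans ?_
    have h5 : 1 / (4 * N) * (ρ * N) = ρ / 4 := by field_simp
    rw [h5]; linarith
  · have h2 := hk.2 (((q * e : ℕ) : ℝ) * θ) (by
      unfold scl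
      exact Finset.mem_image_of_mem _ hθ)
    refine le_trans (le_of_eq ?_) h2
    congr 1
    push_cast; ring

/-- multiples of the shift -/
lemma nea_shift_mul {N ρ : ℝ} {Θ : Finset ℝ} {q e : ℕ} {k : ℤ} (hq : 1 ≤ q) (he : 1 ≤ e) (hN : 0 < N)
    (hρ : 0 ≤ ρ) (hk : k ∈ bohr (N / (q * e : ℕ)) (scl (q * e) Θ) ρ) (j : ℕ) :
    ∀ θ ∈ insert (1 / (4 * N)) Θ, nn (θ * ((j : ℝ) * (((q : ℝ) * e) * k))) ≤ j * ρ := by
  intro θ hθ
  have h := (nea_shift hq he hN hρ hk).2 θ hθ
  have e1 : θ * ((j : ℝ) * (((q : ℝ) * e) * k)) = ((j : ℤ) : ℝ) * (θ * (((q : ℝ) * e) * k)) := by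
    push_cast; ring
  rw [e1]
  refine (nn_int_mul_le _ _).trans ?_
  have e2 : |(((j : ℤ)) : ℝ)| = j := by
    rw [Int.cast_natCast]; exact abs_of_nonneg (Nat.cast_nonneg _)
  rw [e2]
  exact mul_le_mul_of_nonneg_left h (Nat.cast_nonneg _)

lemma nea_cls_nonneg (h0 : S_bet) (K r : ℕ) (Th : Finset ℝ) (hK : 1 ≤ K) (hr : 1 ≤ r) (q n e : ℕ) (s : ℤ) :
    0 ≤ cls (fun x => bet K r Th ((q : ℝ) * x)) n e s := by
  unfold cls
  exact Finset.sum_nonneg (fun x _ => (h0 K r Th hK hr).1 _)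

set_option maxHeartbeats 1000000 in
theorem p_near (h : S_mlip) (h0 : S_bet) : S_near := by
  intro N ρ Θ K r q e k s hK hr hq he hNq hρ hρ1 hk hkb
  classical
  have hqR : (1:ℝ) ≤ q := by exact_mod_cast hq
  have heR : (1:ℝ) ≤ e := by exact_mod_cast he
  have hKR : (1:ℝ) ≤ K := by exact_mod_cast hK
  have hrR : (1:ℝ) ≤ r := by exact_mod_cast hr
  have hN : 0 < N := by linarith
  have hkR : (0:ℝ) < k := by exact_mod_cast hk
  have hpi := Real.pi_pos
  set Th := insert (1 / (4 * N)) Θ with hTh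
  have hThc : (Th.card : ℝ) ≤ Θ.card + 1 := by
    exact_mod_cast Finset.card_insert_le _ _
  have hR0 : (0:ℝ) ≤ Θ.card := Nat.cast_nonneg _
  set M := 12 * Real.pi * r * K * (Θ.card + 1) * ρ with hM
  have hMpos : 0 < M := by positivity
  set y := 1 / M with hy
  have hy1 : 1 ≤ y := by
    rw [hy, le_div_iff₀ hMpos]; linarith
  set L := ⌊y⌋₊ with hL
  have hL1 : 1 ≤ L := Nat.le_floor (by simpa using hy1)
  have hLR : (1:ℝ) ≤ L := by exact_mod_cast hL1
  have hLy : (L:ℝ) ≤ y := Nat.floor_le (by linarith)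
  have hyL : y ≤ 2 * L := by
    have := Nat.lt_floor_add_one y
    linarith
  set b0 : ℤ → ℝ := fun x => bet K r Th ((q : ℝ) * x) with hb0
  have hb0nn : ∀ x, 0 ≤ b0 x := fun x => (h0 K r Th hK hr).1 _
  set P := (Finset.Icc (1 : ℤ) (e * k)).filter (fun x => (e : ℤ) ∣ x - s) with hP
  set Q := (1 / 4 : ℝ) ^ r with hQ
  have hQ0 : 0 < Q := by positivity
  have hPc : (P.card : ℝ) ≤ k := nea_card e he k s hk.le
  -- pointwise
  have hpt : ∀ j ∈ Finset.Icc 1 L, ∀ x : ℤ, b0 x ≤ 2 * b0 (x + j * (e * k)) + 1 / 2 * Q := by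
    intro j hj x
    have hj' := Finset.mem_Icc.1 hj
    have hjL : (j:ℝ) ≤ L := by exact_mod_cast hj'.2
    have hj0 : (0:ℝ) ≤ j := Nat.cast_nonneg _
    have hm := h K r Th (j * ρ) hK hr (by positivity) ((q : ℝ) * x) ((j : ℝ) * (((q : ℝ) * e) * k))
      (nea_shift_mul hq he hN hρ.le hkb j)
    have e1 : (q : ℝ) * x + (j : ℝ) * (((q : ℝ) * e) * k) = (q : ℝ) * ((x + j * (e * k) : ℤ) : ℝ) := by
      push_cast; ring
    rw [e1] at hm
    have hlam : 4 * Real.pi * r * K * Th.card * (j * ρ) ≤ 1 / 3 := by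
      have h1 : 4 * Real.pi * r * K * Th.card * (j * ρ) ≤ 4 * Real.pi * r * K * (Θ.card + 1) * (y * ρ) := by
        apply mul_le_mul
        · exact mul_le_mul_of_nonneg_left hThc (by positivity)
        · exact mul_le_mul_of_nonneg_right (hjL.trans hLy) hρ.le
        · positivity
        · positivity
      refine h1.trans (le_of_eq ?_)
      have h2 : 4 * Real.pi * r * K * (Θ.card + 1) * (y * ρ) = M / 3 * y := by rw [hM]; ring
      rw [h2, hy]
      field_simp
    have hA : 0 ≤ b0 x + b0 (x + j * (e * k)) + Q := by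
      have := hb0nn x; have := hb0nn (x + j * (e * k)); linarith
    have hm2 : |b0 (x + j * (e * k)) - b0 x| ≤ 1 / 3 * (b0 x + b0 (x + j * (e * k)) + Q) :=
      hm.trans (mul_le_mul_of_nonneg_right hlam hA)
    have := (abs_le.1 hm2).1
    linarith
  -- sum over x and j
  have hsum : (L:ℝ) * ∑ x ∈ P, b0 x ≤
      2 * (∑ j ∈ Finset.Icc 1 L, ∑ x ∈ P, b0 (x + j * (e * k))) + L * (P.card * (1 / 2 * Q)) := by
    have h1 : ∑ j ∈ Finset.Icc 1 L, ∑ x ∈ P, b0 x ≤
        ∑ j ∈ Finset.Icc 1 L, ∑ x ∈ P, (2 * b0 (x + j * (e * k)) + 1 / 2 * Q) :=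
      Finset.sum_le_sum (fun j hj => Finset.sum_le_sum (fun x _ => hpt j hj x))
    have h2 : ∑ j ∈ Finset.Icc 1 L, ∑ x ∈ P, b0 x = (L:ℝ) * ∑ x ∈ P, b0 x := by
      rw [Finset.sum_const, Nat.card_Icc, nsmul_eq_mul]; simp
    have h3 : ∑ j ∈ Finset.Icc 1 L, ∑ x ∈ P, (2 * b0 (x + j * (e * k)) + 1 / 2 * Q) =
        2 * (∑ j ∈ Finset.Icc 1 L, ∑ x ∈ P, b0 (x + j * (e * k))) + L * (P.card * (1 / 2 * Q)) := by
      simp only [Finset.sum_add_distrib, Finset.sum_const, nsmul_eq_mul, Finset.mul_sum, Nat.card_Icc]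
      simp
    rw [← h2, ← h3]; exact h1
  -- blocks are disjoint
  have hek : (e:ℤ) * k > 0 := by
    have : (0:ℤ) < e := by exact_mod_cast he
    positivity
  have hblock : ∑ j ∈ Finset.Icc 1 L, ∑ x ∈ P, b0 (x + j * (e * k)) ≤ cls b0 ⌊N / q⌋₊ e s := by
    rw [← Finset.sum_product' (Finset.Icc 1 L) P (fun j x => b0 (x + j * (e * k)))]
    have hinj : Set.InjOn (fun p : ℕ × ℤ => p.2 + p.1 * (e * k)) (Finset.Icc 1 L ×ˢ P : Finset (ℕ × ℤ)) := by
      rintro ⟨j, x⟩ hp ⟨j', x'⟩ hp' heq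
      have h1 := Finset.mem_product.1 (Finset.mem_coe.1 hp)
      have h2 := Finset.mem_product.1 (Finset.mem_coe.1 hp')
      have h3 := Finset.mem_Icc.1 (Finset.mem_filter.1 h1.2).1
      have h4 := Finset.mem_Icc.1 (Finset.mem_filter.1 h2.2).1
      have heq' : x + (j:ℤ) * (e * k) = x' + (j':ℤ) * (e * k) := heq
      simp only at h3 h4
      have hj : (j:ℤ) = j' := by
        rcases lt_trichotomy (j:ℤ) j' with hlt | heq2 | hgt
        · exfalso
          have : (j:ℤ) + 1 ≤ j' := by omega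
          nlinarith
        · exact heq2
        · exfalso
          have : (j':ℤ) + 1 ≤ j := by omega
          nlinarith
      have hj' : j = j' := by exact_mod_cast hj
      subst hj'
      have : x = x' := by linarith
      rw [this]
    rw [← Finset.sum_image (f := b0) (g := fun p : ℕ × ℤ => p.2 + p.1 * (e * k)) hinj]
    unfold cls
    apply Finset.sum_le_sum_of_subset_of_nonneg
    · intro z hz
      obtain ⟨⟨j, x⟩, hp, rfl⟩ := Finset.mem_image.1 hz
      have h1 := Finset.mem_product.1 hp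
      have h2 := Finset.mem_Icc.1 h1.1
      have h3 := Finset.mem_filter.1 h1.2
      have h4 := Finset.mem_Icc.1 h3.1
      simp only at h2 h3 h4
      rw [Finset.mem_filter, Finset.mem_Icc]
      refine ⟨⟨?_, ?_⟩, ?_⟩
      · have : 0 ≤ (j:ℤ) * (e * k) := by positivity
        simp only; linarith
      · simp only
        have h5 : ((x + (j:ℤ) * (e * k) : ℤ) : ℝ) ≤ N / q := by
          push_cast
          have h6 : (x:ℝ) ≤ e * k := by exact_mod_cast h4.2
          have h7 : (j:ℝ) ≤ L := by exact_mod_cast h2.2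
          have hekR : (0:ℝ) < e * k := by positivity
          have h8 : (q:ℝ) * (e * k) ≤ ρ * N := by
            have := (nea_shift hq he hN hρ.le hkb).1
            have := (abs_le.1 this).2
            linarith
          have h9 : (x:ℝ) + j * (e * k) ≤ (2 * y) * (e * k) := by nlinarith
          rw [le_div_iff₀ (by linarith)]
          have h10 : (x + (j:ℝ) * (e * k)) * q ≤ (2 * y) * (ρ * N) := by
            calc (x + (j:ℝ) * (e * k)) * q ≤ ((2 * y) * (e * k)) * q :=
                  mul_le_mul_of_nonneg_right h9 (by linarith)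
              _ = (2 * y) * ((q:ℝ) * (e * k)) := by ring
              _ ≤ (2 * y) * (ρ * N) := mul_le_mul_of_nonneg_left h8 (by linarith)
          refine h10.trans ?_
          have h11 : 2 * y * ρ ≤ 1 := by
            have h12 : 2 * ρ ≤ M := by
              rw [hM]
              have a1 : (1:ℝ) ≤ r * K := by nlinarith
              have a2 : (1:ℝ) ≤ r * K * (Θ.card + 1) := by nlinarith
              have a3 : (3:ℝ) < Real.pi := Real.pi_gt_three
              have a4 : 12 * Real.pi * r * K * (Θ.card + 1) * ρ = 12 * Real.pi * (r * K * (Θ.card + 1)) * ρ := by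
                ring
              rw [a4]
              have a5 : (2:ℝ) ≤ 12 * Real.pi * (r * K * (Θ.card + 1)) := by nlinarith
              nlinarith
            rw [hy, mul_comm 2, mul_assoc, div_mul_eq_mul_div, one_mul, div_le_one hMpos]
            exact h12
          calc 2 * y * (ρ * N) = (2 * y * ρ) * N := by ring
            _ ≤ 1 * N := mul_le_mul_of_nonneg_right h11 hN.le
            _ = N := one_mul N
        have h6 : 0 ≤ x + (j:ℤ) * (e * k) := by
          have : 0 ≤ (j:ℤ) * (e * k) := by positivity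
          linarith
        have h7 : (x + (j:ℤ) * (e * k)).toNat ≤ ⌊N / q⌋₊ := by
          apply Nat.le_floor
          have : (((x + (j:ℤ) * (e * k)).toNat : ℕ) : ℝ) = ((x + (j:ℤ) * (e * k) : ℤ) : ℝ) := by
            have h8 : (((x + (j:ℤ) * (e * k)).toNat : ℕ) : ℤ) = x + (j:ℤ) * (e * k) := Int.toNat_of_nonneg h6
            exact_mod_cast h8
          rw [this]; exact h5
        omega
      · simp only
        have : x + (j:ℤ) * (e * k) - s = (x - s) + e * (j * k) := by ring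
        rw [this]
        exact dvd_add h3.2 (dvd_mul_right _ _)
    · intro z _ _; exact hb0nn z
  -- conclusion
  have hfin : (L:ℝ) * ∑ x ∈ P, b0 x ≤ 2 * cls b0 ⌊N / q⌋₊ e s + L * (k * (1 / 2 * Q)) := by
    have h1 : (P.card:ℝ) * (1 / 2 * Q) ≤ k * (1 / 2 * Q) := mul_le_mul_of_nonneg_right hPc (by positivity)
    have h2 := mul_le_mul_of_nonneg_left h1 (show (0:ℝ) ≤ L by linarith)
    linarith
  have hcl : 0 ≤ cls b0 ⌊N / q⌋₊ e s := nea_cls_nonneg h0 K r Th hK hr q _ e s
  have h4M : 1 ≤ (2 * M) * L := by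
    have h1 : M * y = 1 := by rw [hy]; field_simp
    nlinarith
  have hLpos : (0:ℝ) < L := by linarith
  have h5 : (L:ℝ) * ∑ x ∈ P, b0 x ≤ L * (4 * M * cls b0 ⌊N / q⌋₊ e s + 2 * Q * k) := by
    refine hfin.trans ?_
    have h6 : 2 * cls b0 ⌊N / q⌋₊ e s ≤ (2 * ((2 * M) * L)) * cls b0 ⌊N / q⌋₊ e s :=
      mul_le_mul_of_nonneg_right (by linarith) hcl
    have h7 : (L:ℝ) * (k * (1 / 2 * Q)) ≤ L * (2 * Q * k) := by
      apply mul_le_mul_of_nonneg_left _ hLpos.le
      nlinarith [mul_pos hkR hQ0]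
    nlinarith
  have h6 := le_of_mul_le_mul_left h5 hLpos
  refine h6.trans (le_of_eq ?_)
  rw [hM]; ring

end Pool.Agent.APP
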