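import Pool.Agent.Lib.MP_8a4e59_co.C.StmC

set_option autoImplicit false

/-! (C2) elimination of resonances. (helper21) -/

namespace Pool.Agent.APP

open Finset

/-- the arithmetic core: the contradiction from a vanishing combination -/
lemma qst_core (J Y : ℕ) (τ : ℝ) (Q e : ℕ → ℕ) (c : ℕ → ℤ) (t x : ℕ → ℝ) (ε : ℕ → ℤ) (j0 : ℕ)
    (hY : 1 ≤ Y) (hτ : 0 < τ) (hJ : (J : ℝ) * (Y : ℝ) ^ J * τ < 1) (hj0 : j0 < J)
    (hQ1 : ∀ j ≤ J, 1 ≤ Q j) (hQY : ∀ j ≤ J, Q j ≤ Y ^ j)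
    (hQs : ∀ j < J, Q (j + 1) = Q j * e j)
    (ht : ∀ j < J, (Q j : ℝ) * t j = c j / e j + x j) (hx : ∀ j < J, |x j| < τ)
    (hε : ∀ j, |ε j| ≤ 1) (hε0 : ε j0 ≠ 0)
    (hsum : ∑ j ∈ range (j0 + 1), (ε j : ℝ) * t j = 0) : (e j0 : ℤ) ∣ c j0 := by
  have hdvd : ∀ i j, i ≤ j → j ≤ J → Q i ∣ Q j := by
    intro i j hij hjJ
    induction j, hij using Nat.le_induction with
    | base => exact dvd_rfl
    | succ j hij ih =>
      rw [hQs j (by omega)]
      exact (ih (by omega)).mul_right _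
  set M : ℕ → ℕ := fun j => Q (j0 + 1) / Q (j + 1) with hM
  have hMQ : ∀ j ≤ j0, Q (j + 1) * M j = Q (j0 + 1) := by
    intro j hj
    exact Nat.mul_div_cancel' (hdvd (j + 1) (j0 + 1) (by omega) (by omega))
  have he0 : ∀ j < J, (e j : ℝ) ≠ 0 := by
    intro j hj h0
    have h1 := hQs j hj
    have h2 := hQ1 (j + 1) (by omega)
    have h3 : e j = 0 := by exact_mod_cast h0
    rw [h3, mul_zero] at h1
    omega
  have hQ0 : ∀ j ≤ J, (0 : ℝ) < Q j := by
    intro j hj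
    exact_mod_cast hQ1 j hj
  set L : ℤ := ∑ j ∈ range (j0 + 1), ε j * c j * (M j : ℤ) with hL
  have hterm : ∀ j ∈ range (j0 + 1), (Q (j0 + 1) : ℝ) * ((ε j : ℝ) * t j) =
      (ε j : ℝ) * c j * (M j : ℝ) + (ε j : ℝ) * x j * ((Q (j0 + 1) : ℝ) / Q j) := by
    intro j hj
    rw [Finset.mem_range] at hj
    have h1 := ht j (by omega)
    have h2 : (Q (j0 + 1) : ℝ) = Q j * e j * M j := by
      have := hMQ j (by omega)
      rw [hQs j (by omega)] at this
      exact_mod_cast this.symm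
    have h3 := (hQ0 j (by omega)).ne'
    have h4 := he0 j (by omega)
    have h5 : t j = (c j / e j + x j) / Q j := by
      rw [eq_div_iff h3, mul_comm]; exact h1
    rw [h5, h2]
    field_simp
  have hLx : (L : ℝ) = - ∑ j ∈ range (j0 + 1), (ε j : ℝ) * x j * ((Q (j0 + 1) : ℝ) / Q j) := by
    have h1 : ∑ j ∈ range (j0 + 1), (Q (j0 + 1) : ℝ) * ((ε j : ℝ) * t j) = 0 := by
      rw [← Finset.mul_sum, hsum, mul_zero]
    rw [Finset.sum_congr rfl hterm, Finset.sum_add_distrib] at h1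
    have h2 : (L : ℝ) = ∑ j ∈ range (j0 + 1), (ε j : ℝ) * c j * (M j : ℝ) := by
      rw [hL]; push_cast; rfl
    rw [h2]; linarith
  have hLlt : |(L : ℝ)| < 1 := by
    rw [hLx, abs_neg]
    have h1 : ∀ j ∈ range (j0 + 1), |(ε j : ℝ) * x j * ((Q (j0 + 1) : ℝ) / Q j)| ≤ τ * (Y : ℝ) ^ J := by
      intro j hj
      rw [Finset.mem_range] at hj
      rw [abs_mul, abs_mul]
      have a1 : |(ε j : ℝ)| ≤ 1 := by exact_mod_cast hε j
      have a2 := (hx j (by omega)).le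
      have a3 : |(Q (j0 + 1) : ℝ) / Q j| ≤ (Y : ℝ) ^ J := by
        rw [abs_of_nonneg (by positivity), div_le_iff₀ (hQ0 j (by omega))]
        have b1 : (Q (j0 + 1) : ℝ) ≤ (Y : ℝ) ^ J := by
          have b2 : Q (j0 + 1) ≤ Y ^ J :=
            (hQY (j0 + 1) (by omega)).trans (Nat.pow_le_pow_right hY (by omega))
          exact_mod_cast b2
        have b3 : (1 : ℝ) ≤ Q j := by exact_mod_cast hQ1 j (by omega)
        have b4 : (0 : ℝ) ≤ (Y : ℝ) ^ J := by positivity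
        nlinarith
      calc |(ε j : ℝ)| * |x j| * |(Q (j0 + 1) : ℝ) / Q j| ≤ 1 * τ * (Y : ℝ) ^ J := by gcongr
        _ = _ := by ring
    calc |∑ j ∈ range (j0 + 1), (ε j : ℝ) * x j * ((Q (j0 + 1) : ℝ) / Q j)|
        ≤ ∑ j ∈ range (j0 + 1), |(ε j : ℝ) * x j * ((Q (j0 + 1) : ℝ) / Q j)| :=
          Finset.abs_sum_le_sum_abs _ _
      _ ≤ ∑ j ∈ range (j0 + 1), τ * (Y : ℝ) ^ J := Finset.sum_le_sum h1
      _ = ((j0 + 1 : ℕ) : ℝ) * (τ * (Y : ℝ) ^ J) := by
        rw [Finset.sum_const, nsmul_eq_mul, Finset.card_range]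
      _ ≤ (J : ℝ) * (τ * (Y : ℝ) ^ J) := by
        have : ((j0 + 1 : ℕ) : ℝ) ≤ J := by exact_mod_cast hj0
        gcongr
      _ = (J : ℝ) * (Y : ℝ) ^ J * τ := by ring
      _ < 1 := hJ
  have hL0 : L = 0 := by
    have h1 : |L| < 1 := by exact_mod_cast hLlt
    exact Int.abs_lt_one_iff.1 h1
  have hsplit : L = ∑ j ∈ range j0, ε j * c j * (M j : ℤ) + ε j0 * c j0 * (M j0 : ℤ) := by
    rw [hL, Finset.sum_range_succ]
  have hM0 : M j0 = 1 := Nat.div_self (hQ1 (j0 + 1) (by omega))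
  have hd : (e j0 : ℤ) ∣ ∑ j ∈ range j0, ε j * c j * (M j : ℤ) := by
    apply Finset.dvd_sum
    intro j hj
    rw [Finset.mem_range] at hj
    have h1 : e j0 ∣ M j := by
      obtain ⟨k, hk⟩ := hdvd (j + 1) j0 (by omega) (by omega)
      refine ⟨k, ?_⟩
      have h2 := hMQ j (by omega)
      rw [hQs j0 hj0, hk, mul_assoc] at h2
      have h3 := Nat.eq_of_mul_eq_mul_left (hQ1 (j + 1) (by omega)) h2
      rw [h3]; ring
    exact (Int.natCast_dvd_natCast.2 h1).mul_left _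
  rw [hL0, hM0, Nat.cast_one, mul_one] at hsplit
  have h6 : (e j0 : ℤ) ∣ ε j0 * c j0 := by
    have h7 : ε j0 * c j0 = -∑ j ∈ range j0, ε j * c j * (M j : ℤ) := by linarith
    rw [h7]; exact hd.neg_right
  have h8 : ε j0 = 1 ∨ ε j0 = -1 := by
    have := abs_le.1 (hε j0)
    omega
  rcases h8 with h8 | h8
  · rw [h8, one_mul] at h6; exact h6
  · rw [h8, neg_one_mul] at h6; exact (dvd_neg.1 h6)

theorem p_qst : S_qst := by
  classical
  intro Th H Y J W₀ τ hY hW hτ hpig hJ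
  by_contra hcon
  push Not at hcon
  have hcon' : ∀ q : ℕ, (1 ≤ q ∧ q ≤ Y ^ J ∧ q.Coprime W₀) → ∃ (e : ℕ) (a : ℤ) (v : ℝ → ℤ),
      2 ≤ e ∧ e ≤ Y ∧ e.Coprime (W₀ * q) ∧ Int.gcd a e = 1 ∧ (∀ θ ∈ Th, |v θ| ≤ (H : ℤ)) ∧
      nn ((q : ℝ) * (∑ θ ∈ Th, (v θ : ℝ) * θ) - a / e) < τ := by
    rintro q ⟨h1, h2, h3⟩
    exact hcon q h1 h2 h3
  choose! E A Vv hE2 hEY hEc hAE hVH hnn using hcon'
  obtain ⟨Q, hQs, hQ0⟩ : ∃ Q : ℕ → ℕ, (∀ j, Q (j + 1) = Q j * E (Q j)) ∧ Q 0 = 1 :=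
    ⟨fun n => Nat.rec 1 (fun _ q => q * E q) n, fun _ => rfl, rfl⟩
  have hY1 : 1 ≤ Y := by omega
  have hQ : ∀ j ≤ J, 1 ≤ Q j ∧ Q j ≤ Y ^ j ∧ (Q j).Coprime W₀ := by
    intro j
    induction j with
    | zero => intro _; rw [hQ0]; exact ⟨le_rfl, by simp, Nat.coprime_one_left _⟩
    | succ j ih =>
      intro hj
      obtain ⟨h1, h2, h3⟩ := ih (by omega)
      have hg : 1 ≤ Q j ∧ Q j ≤ Y ^ J ∧ (Q j).Coprime W₀ :=
        ⟨h1, h2.trans (Nat.pow_le_pow_right hY1 (by omega)), h3⟩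
      have e2 := hE2 _ hg
      rw [hQs]
      refine ⟨Nat.one_le_iff_ne_zero.2 (Nat.mul_ne_zero (by omega) (by omega)), ?_, ?_⟩
      · rw [pow_succ]; exact Nat.mul_le_mul h2 (hEY _ hg)
      · exact Nat.Coprime.mul_left h3 ((hEc _ hg).coprime_mul_right_right)
  have hgood : ∀ j < J, 1 ≤ Q j ∧ Q j ≤ Y ^ J ∧ (Q j).Coprime W₀ := by
    intro j hj
    obtain ⟨h1, h2, h3⟩ := hQ j hj.le
    exact ⟨h1, h2.trans (Nat.pow_le_pow_right hY1 hj.le), h3⟩
  -- pigeonhole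
  let φ : Finset ℕ → (Th → ℤ) := fun S θ => ∑ j ∈ S, Vv (Q j) θ
  let T : Finset (Th → ℤ) := Fintype.piFinset (fun _ => Finset.Icc (-((J * H : ℕ) : ℤ)) ((J * H : ℕ) : ℤ))
  have hTc : T.card = (2 * J * H + 1) ^ Th.card := by
    show (Fintype.piFinset (fun _ : Th => Finset.Icc (-((J * H : ℕ) : ℤ)) ((J * H : ℕ) : ℤ))).card = _
    rw [Fintype.card_piFinset, Finset.prod_const, Finset.card_univ, Int.card_Icc, Fintype.card_coe]
    congr 1
    have : ((J * H : ℕ) : ℤ) + 1 - -((J * H : ℕ) : ℤ) = ((2 * J * H + 1 : ℕ) : ℤ) := by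
      push_cast; ring
    rw [this, Int.toNat_natCast]
  have hmaps : ∀ S ∈ (range J).powerset, φ S ∈ T := by
    intro S hS
    rw [Finset.mem_powerset] at hS
    rw [Fintype.mem_piFinset]
    intro θ
    rw [Finset.mem_Icc, ← abs_le]
    calc |∑ j ∈ S, Vv (Q j) θ| ≤ ∑ j ∈ S, |Vv (Q j) θ| := Finset.abs_sum_le_sum_abs _ _
      _ ≤ ∑ j ∈ S, (H : ℤ) := Finset.sum_le_sum fun j hj =>
          hVH _ (hgood j (Finset.mem_range.1 (hS hj))) θ θ.2
      _ = (S.card : ℤ) * H := by rw [Finset.sum_const, nsmul_eq_mul]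
      _ ≤ (J : ℤ) * H := by
        have h1 := Finset.card_le_card hS
        rw [Finset.card_range] at h1
        have h2 : (S.card : ℤ) ≤ J := by exact_mod_cast h1
        gcongr
      _ = ((J * H : ℕ) : ℤ) := by push_cast; rfl
  obtain ⟨S, hS, S', hS', hne, heq⟩ := Finset.exists_ne_map_eq_of_card_lt_of_maps_to
    (by rw [hTc, Finset.card_powerset, Finset.card_range]; exact hpig) hmaps
  rw [Finset.mem_powerset] at hS hS'
  set ε : ℕ → ℤ := fun j => (if j ∈ S then 1 else 0) - (if j ∈ S' then 1 else 0) with hε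
  have hε1 : ∀ j, |ε j| ≤ 1 := by
    intro j
    simp only [hε]
    split_ifs <;> simp
  have hεJ : ∀ j, J ≤ j → ε j = 0 := by
    intro j hj
    have h1 : j ∉ S := fun h => by have := Finset.mem_range.1 (hS h); omega
    have h2 : j ∉ S' := fun h => by have := Finset.mem_range.1 (hS' h); omega
    simp only [hε, if_neg h1, if_neg h2, sub_zero]
  have hDne : ((range J).filter (fun j => ε j ≠ 0)).Nonempty := by
    by_contra hemp
    rw [Finset.not_nonempty_iff_eq_empty, Finset.filter_eq_empty_iff] at hemp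
    apply hne
    ext j
    by_cases hj : j < J
    · have h1 := hemp (Finset.mem_range.2 hj)
      push Not at h1
      simp only [hε] at h1
      by_cases a1 : j ∈ S <;> by_cases a2 : j ∈ S' <;> simp [a1, a2] at h1 ⊢
    · constructor
      · intro h; have := Finset.mem_range.1 (hS h); omega
      · intro h; have := Finset.mem_range.1 (hS' h); omega
  set j0 := ((range J).filter (fun j => ε j ≠ 0)).max' hDne with hj0
  have hj0m : j0 ∈ (range J).filter (fun j => ε j ≠ 0) := Finset.max'_mem _ _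
  rw [Finset.mem_filter, Finset.mem_range] at hj0m
  obtain ⟨hj0J, hj0ne⟩ := hj0m
  have hafter : ∀ j, j0 < j → ε j = 0 := by
    intro j hj
    by_cases hjJ : j < J
    · by_contra hc
      have : j ≤ j0 := Finset.le_max' _ _ (Finset.mem_filter.2 ⟨Finset.mem_range.2 hjJ, hc⟩)
      omega
    · exact hεJ j (by omega)
  have hvan : ∀ θ ∈ Th, ∑ j ∈ range (j0 + 1), ε j * Vv (Q j) θ = 0 := by
    intro θ hθ
    have h1 : ∑ j ∈ S, Vv (Q j) θ = ∑ j ∈ S', Vv (Q j) θ := congrFun heq ⟨θ, hθ⟩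
    have h2 : ∑ j ∈ range J, ε j * Vv (Q j) θ = 0 := by
      have h3 : ∀ U : Finset ℕ, U ⊆ range J → ∑ j ∈ range J, (if j ∈ U then (1 : ℤ) else 0) * Vv (Q j) θ =
          ∑ j ∈ U, Vv (Q j) θ := by
        intro U hU
        simp only [ite_mul, one_mul, zero_mul]
        rw [← Finset.sum_filter]
        congr 1
        ext j
        rw [Finset.mem_filter]
        exact ⟨fun h => h.2, fun h => ⟨hU h, h⟩⟩
      simp only [hε, sub_mul]
      rw [Finset.sum_sub_distrib, h3 S hS, h3 S' hS', h1, sub_self]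
    rw [← h2]
    apply Finset.sum_subset
    · intro j hj
      rw [Finset.mem_range] at hj ⊢
      omega
    · intro j _ hj
      rw [Finset.mem_range] at hj
      rw [hafter j (by omega), zero_mul]
  set t : ℕ → ℝ := fun j => ∑ θ ∈ Th, (Vv (Q j) θ : ℝ) * θ with ht
  set e : ℕ → ℕ := fun j => E (Q j) with he
  set nj : ℕ → ℤ := fun j => round ((Q j : ℝ) * t j - (A (Q j) : ℝ) / (e j : ℝ)) with hnj
  set c : ℕ → ℤ := fun j => A (Q j) + nj j * (e j : ℤ) with hc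
  set x : ℕ → ℝ := fun j => (Q j : ℝ) * t j - (A (Q j) : ℝ) / (e j : ℝ) - nj j with hx
  have hdiv := qst_core J Y τ Q e c t x ε j0 hY1 hτ hJ hj0J (fun j hj => (hQ j hj).1)
    (fun j hj => (hQ j hj).2.1) (fun j _ => hQs j)
    (by
      intro j hj
      have he0 : (e j : ℝ) ≠ 0 := by
        have := hE2 _ (hgood j hj)
        have : e j ≠ 0 := by show E (Q j) ≠ 0; omega
        exact_mod_cast this
      simp only [hc, hx]
      push_cast
      field_simp
      ring)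
    (by
      intro j hj
      have := hnn _ (hgood j hj)
      exact this)
    hε1 hj0ne
    (by
      have h1 : ∀ j ∈ range (j0 + 1), (ε j : ℝ) * t j = ∑ θ ∈ Th, ((ε j * Vv (Q j) θ : ℤ) : ℝ) * θ := by
        intro j _
        simp only [ht]
        rw [Finset.mul_sum]
        refine Finset.sum_congr rfl fun θ _ => ?_
        push_cast; ring
      rw [Finset.sum_congr rfl h1, Finset.sum_comm]
      apply Finset.sum_eq_zero
      intro θ hθ
      rw [← Finset.sum_mul, ← Int.cast_sum, hvan θ hθ, Int.cast_zero, zero_mul])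
  have hg := hgood j0 hj0J
  have h1 : (e j0 : ℤ) ∣ A (Q j0) := by
    have h2 : A (Q j0) = c j0 - nj j0 * (e j0 : ℤ) := by simp only [hc]; ring
    rw [h2]
    exact dvd_sub hdiv (dvd_mul_left _ _)
  have h3 := hAE _ hg
  have h4 : ((E (Q j0) : ℕ) : ℤ) ∣ ((Int.gcd (A (Q j0)) (E (Q j0)) : ℕ) : ℤ) :=
    Int.dvd_coe_gcd h1 (dvd_refl _)
  rw [h3] at h4
  have h6 : E (Q j0) ∣ 1 := by exact_mod_cast h4
  have h7 := Nat.le_of_dvd (by norm_num) h6
  have h5 := hE2 _ hg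
  omega

end Pool.Agent.APP
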