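import Pool.Agent.Lib.MP_8a4e59_co.C.StmC

set_option autoImplicit false

/-!
MP_8a4e59_co, part C: proof of `S_wexp` from `S_bexp`.
-/

namespace Pool.Agent.APP

open Finset

lemma wex_geom (M : ℕ) (hM : 1 ≤ M) (d : ℤ) :
    ∑ j : Fin M, ee ((j : ℕ) * ((d : ℝ) / M)) = if (M : ℤ) ∣ d then (M : ℂ) else 0 := by
  have hMr : (M : ℝ) ≠ 0 := by
    have : (0 : ℝ) < M := by exact_mod_cast hM
    exact this.ne'
  split_ifs with h
  · obtain ⟨k, hk⟩ := h
    have h1 : (d : ℝ) / M = k := by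
      rw [hk]
      push_cast
      field_simp
    have h2 : ∀ j : Fin M, ee ((j : ℕ) * ((d : ℝ) / M)) = 1 := by
      intro j
      rw [h1]
      have := ee_int (((j : ℕ) : ℤ) * k)
      push_cast at this
      exact this
    rw [Finset.sum_congr rfl (fun j _ => h2 j)]
    simp
  · have h1 : ee ((d : ℝ) / M) ≠ 1 := by
      intro he
      have h2 := four_nn_le ((d : ℝ) / M)
      rw [he, sub_self, norm_zero] at h2
      have h3 := nn_nonneg ((d : ℝ) / M)
      obtain ⟨k, hk⟩ := (nn_eq_zero_iff _).1 (le_antisymm (by linarith) h3)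
      apply h
      refine ⟨k, ?_⟩
      rw [div_eq_iff hMr] at hk
      have : (d : ℝ) = ((M * k : ℤ) : ℝ) := by push_cast; linarith
      exact_mod_cast this
    have h4 : ∑ j : Fin M, ee ((j : ℕ) * ((d : ℝ) / M)) = ∑ j ∈ range M, ee ((d : ℝ) / M) ^ j := by
      rw [Finset.sum_range]
      exact Finset.sum_congr rfl (fun j _ => ee_nat_mul j _)
    rw [h4, geom_sum_eq h1, ← ee_nat_mul]
    have h5 : (M : ℝ) * ((d : ℝ) / M) = d := by field_simp
    rw [h5, ee_int, sub_self, zero_div]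

theorem p_wexp (h : S_bexp) : S_wexp := by
  intro K r W M Th hK hr hW hM
  obtain ⟨m, c, v, hc, hsum, _, hexp⟩ := h K r Th hK hr
  have hMr : (0 : ℝ) < M := by exact_mod_cast hM
  have hMc : (M : ℂ) ≠ 0 := by
    have : (M : ℝ) ≠ 0 := hMr.ne'
    exact_mod_cast this
  refine ⟨m * M, fun k => c (finProdFinEquiv.symm k).1 / M,
    fun k => (∑ θ ∈ Th, (v (finProdFinEquiv.symm k).1 θ : ℝ) * θ) / W +
      (((finProdFinEquiv.symm k).2 : ℕ) : ℝ) / M, ?_, ?_, ?_⟩
  · intro k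
    exact div_nonneg (hc _) hMr.le
  · rw [Equiv.sum_comp finProdFinEquiv.symm (fun p : Fin m × Fin M => c p.1 / M),
      Fintype.sum_prod_type]
    simp only [Finset.sum_const, Finset.card_univ, Fintype.card_fin, nsmul_eq_mul]
    rw [← hsum]
    refine Finset.sum_congr rfl (fun i _ => ?_)
    field_simp
  · intro d
    rw [Equiv.sum_comp finProdFinEquiv.symm (fun p : Fin m × Fin M =>
      ((c p.1 / M : ℝ) : ℂ) * ee (((∑ θ ∈ Th, (v p.1 θ : ℝ) * θ) / W + ((p.2 : ℕ) : ℝ) / M) * d)),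
      Fintype.sum_prod_type]
    have h1 : ∀ (i : Fin m) (j : Fin M), ((c i / M : ℝ) : ℂ) *
        ee (((∑ θ ∈ Th, (v i θ : ℝ) * θ) / W + ((j : ℕ) : ℝ) / M) * d) =
        (c i : ℂ) * ee ((∑ θ ∈ Th, (v i θ : ℝ) * θ) * ((d : ℝ) / W)) *
          (ee ((j : ℕ) * ((d : ℝ) / M)) / M) := by
      intro i j
      have e1 : ((∑ θ ∈ Th, (v i θ : ℝ) * θ) / W + ((j : ℕ) : ℝ) / M) * d =
          (∑ θ ∈ Th, (v i θ : ℝ) * θ) * ((d : ℝ) / W) + (j : ℕ) * ((d : ℝ) / M) := by ring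
      rw [e1, ee_add]
      push_cast
      ring
    simp only [h1]
    simp only [← Finset.mul_sum, ← Finset.sum_div]
    rw [wex_geom M hM d, ← Finset.sum_mul, ← hexp]
    split_ifs with hd
    · rw [div_self hMc, mul_one]
    · simp

end Pool.Agent.APP
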