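import Pool.Agent.Lib.MP_8a4e59_co.C.P_fej
import Pool.Agent.Lib.MP_8a4e59_co.C.P_exp
import Pool.Agent.Lib.MP_8a4e59_co.C.P_wexp
import Pool.Agent.Lib.MP_8a4e59_co.C.P_bet
import Pool.Agent.Lib.MP_8a4e59_co.C.P_mlip
import Pool.Agent.Lib.MP_8a4e59_co.C.P_mass
import Pool.Agent.Lib.MP_8a4e59_co.C.P_qst
import Pool.Agent.Lib.MP_8a4e59_co.C.P_equi
import Pool.Agent.Lib.MP_8a4e59_co.C.P_near
import Pool.Agent.Lib.MP_8a4e59_co.C.P_inv
import Pool.Agent.Lib.MP_8a4e59_co.C.P_main5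
import Pool.Agent.Lib.MP_8a4e59_co.C.P_conv
import Pool.Agent.Lib.MP_8a4e59_co.A.P.size

set_option autoImplicit false

/-!
Part C, unconditional forms. (helper37)
-/

namespace Pool.Agent.APP

theorem t_fej : S_fej := p_fej

theorem t_fexp : S_fexp := p_fexp

theorem t_bexp : S_bexp := p_bexp p_fexp

theorem t_wexp : S_wexp := p_wexp t_bexp

theorem t_bet : S_bet := p_bet p_fej

theorem t_alip : S_alip := p_alip p_fej

theorem t_mlip : S_mlip := p_mlip

theorem t_mass : S_mass := p_mass t_bet p_size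

theorem t_qst : S_qst := p_qst

theorem t_equi : S_equi := p_equi

theorem t_near : S_near := p_near t_mlip t_bet

theorem t_inv : S_inv := p_inv t_mlip t_bet t_near

theorem t_main5 : S_main5 := p_main5 t_inv t_bet

theorem t_C2 : S_C2 := p_C2 p_qst

theorem t_C3 : S_C3 := p_C3

theorem t_C5q : S_C5q := p_C5q t_main5

end Pool.Agent.APP
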