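import Pool.Agent.Lib.MP_8a4e59_co.Basic

set_option autoImplicit false

/-!
Definitions for parts C and D.
-/

namespace Pool.Agent.APP

open Finset

/-- power of the Fejer kernel, normalised by `fej K r 0 = 1` -/
noncomputable def fej (K r : ℕ) (t : ℝ) : ℝ :=
  ‖(1 / (K : ℂ)) * ∑ j ∈ range K, ee (j * t)‖ ^ (2 * r)

/-- the Bohr weight -/
noncomputable def bet (K r : ℕ) (Th : Finset ℝ) (z : ℝ) : ℝ := ∏ θ ∈ Th, fej K r (θ * z)

/-- the cut off Bohr weight -/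
noncomputable def wgt (K r : ℕ) (Th : Finset ℝ) (q : ℕ) (u : ℤ) (N : ℕ) (x : ℤ) : ℝ :=
  if u ≤ x ∧ x ≤ N then bet K r Th ((q : ℝ) * x) else 0

/-- distribution of a weight in residue classes: `∑_{x ≡ r (e)} b(x)` -/
noncomputable def cls (b : ℤ → ℝ) (N : ℕ) (e : ℕ) (r : ℤ) : ℝ :=
  ∑ x ∈ (Finset.Icc (1 : ℤ) N).filter (fun x => (e : ℤ) ∣ x - r), b x

/-- total mass on `[1, N]` -/
noncomputable def mass (b : ℤ → ℝ) (N : ℕ) : ℝ := ∑ x ∈ Finset.Icc (1 : ℤ) N, b x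

end Pool.Agent.APP
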