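import Pool.Agent.Lib.MP_8a4e59_co.C.StmC

set_option autoImplicit false

/-! (C0a) Fejer powers (helper96). -/

namespace Pool.Agent.APP

open Finset

private lemma fej_pow_sub {a b : ℝ} (ha : 0 ≤ a) (ha1 : a ≤ 1) (hb : 0 ≤ b) (hb1 : b ≤ 1) (n : ℕ) :
    |a ^ n - b ^ n| ≤ n * |a - b| := by
  induction n with
  | zero => simp
  | succ n ih =>
    have h1 : a ^ (n + 1) - b ^ (n + 1) = a * (a ^ n - b ^ n) + b ^ n * (a - b) := by ring
    have h2 : |a * (a ^ n - b ^ n)| ≤ n * |a - b| := by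
      rw [abs_mul, abs_of_nonneg ha]
      calc a * |a ^ n - b ^ n| ≤ 1 * |a ^ n - b ^ n| :=
            mul_le_mul_of_nonneg_right ha1 (abs_nonneg _)
        _ ≤ n * |a - b| := by rw [one_mul]; exact ih
    have h3 : |b ^ n * (a - b)| ≤ |a - b| := by
      rw [abs_mul, abs_of_nonneg (pow_nonneg hb n)]
      calc b ^ n * |a - b| ≤ 1 * |a - b| :=
            mul_le_mul_of_nonneg_right (pow_le_one₀ hb hb1) (abs_nonneg _)
        _ = |a - b| := one_mul _
    rw [h1]
    refine (abs_add_le _ _).trans ?_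
    push_cast
    linarith

private noncomputable def fejg (K : ℕ) (t : ℝ) : ℝ := ‖(1 / (K : ℂ)) * ∑ j ∈ range K, ee (j * t)‖

private lemma fejg_eq (K : ℕ) (t : ℝ) :
    fejg K t = (1 / (K : ℝ)) * ‖∑ j ∈ range K, ee (j * t)‖ := by
  unfold fejg
  rw [norm_mul, norm_div, norm_one, Complex.norm_natCast]

private lemma fejg_le_one (K : ℕ) (hK : 1 ≤ K) (t : ℝ) : fejg K t ≤ 1 := by
  have hKpos : (0 : ℝ) < K := by exact_mod_cast hK
  rw [fejg_eq K]
  calc 1 / (K : ℝ) * ‖∑ j ∈ range K, ee (j * t)‖ ≤ 1 / (K : ℝ) * K :=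
        mul_le_mul_of_nonneg_left (norm_geom_le_card K t) (by positivity)
    _ = 1 := by field_simp

private lemma fejg_lip (K : ℕ) (hK : 1 ≤ K) (t t' : ℝ) :
    |fejg K t - fejg K t'| ≤ Real.pi * K * nn (t - t') := by
  have hKpos : (0 : ℝ) < K := by exact_mod_cast hK
  have hpi := Real.pi_pos
  have h1 : |fejg K t - fejg K t'| ≤
      ‖(1 / (K : ℂ)) * ∑ j ∈ range K, ee (j * t) - (1 / (K : ℂ)) * ∑ j ∈ range K, ee (j * t')‖ :=
    abs_norm_sub_norm_le _ _
  refine h1.trans ?_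
  rw [← mul_sub, ← sum_sub_distrib, norm_mul, norm_div, norm_one, Complex.norm_natCast]
  have h2 : ‖∑ j ∈ range K, (ee (j * t) - ee (j * t'))‖ ≤
      ∑ j ∈ range K, (j : ℝ) * (2 * Real.pi * nn (t - t')) := by
    refine (norm_sum_le _ _).trans (sum_le_sum fun j _ => ?_)
    refine (norm_ee_sub_ee_le _ _).trans ?_
    have h3 : (j : ℝ) * t - j * t' = ((j : ℤ) : ℝ) * (t - t') := by push_cast; ring
    rw [h3]
    have h4 := nn_int_mul_le (j : ℤ) (t - t')
    have h5 : |((j : ℤ) : ℝ)| = j := by push_cast; exact abs_of_nonneg (Nat.cast_nonneg _)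
    rw [h5] at h4
    calc 2 * Real.pi * nn (((j : ℤ) : ℝ) * (t - t')) ≤ 2 * Real.pi * (j * nn (t - t')) :=
          mul_le_mul_of_nonneg_left h4 (by positivity)
      _ = _ := by ring
  have h6 : ∑ j ∈ range K, (j : ℝ) * (2 * Real.pi * nn (t - t')) ≤
      (K : ℝ) * K * (Real.pi * nn (t - t')) := by
    rw [← sum_mul]
    have h7 : (∑ j ∈ range K, (j : ℝ)) * 2 = K * ((K : ℝ) - 1) := by
      have h8 := sum_range_id_mul_two K
      have h9 : (((∑ i ∈ range K, i) * 2 : ℕ) : ℝ) = ((K * (K - 1) : ℕ) : ℝ) := by rw [h8]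
      push_cast [Nat.cast_sub hK] at h9
      exact h9
    have h10 : 0 ≤ Real.pi * nn (t - t') := mul_nonneg hpi.le (nn_nonneg _)
    calc (∑ j ∈ range K, (j : ℝ)) * (2 * Real.pi * nn (t - t'))
        = ((∑ j ∈ range K, (j : ℝ)) * 2) * (Real.pi * nn (t - t')) := by ring
      _ = (K * ((K : ℝ) - 1)) * (Real.pi * nn (t - t')) := by rw [h7]
      _ ≤ (K : ℝ) * K * (Real.pi * nn (t - t')) := by
          apply mul_le_mul_of_nonneg_right _ h10
          exact mul_le_mul_of_nonneg_left (by linarith) hKpos.le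
  calc 1 / (K : ℝ) * ‖∑ j ∈ range K, (ee (j * t) - ee (j * t'))‖
      ≤ 1 / (K : ℝ) * ((K : ℝ) * K * (Real.pi * nn (t - t'))) :=
        mul_le_mul_of_nonneg_left (h2.trans h6) (by positivity)
    _ = Real.pi * K * nn (t - t') := by field_simp

theorem p_fej : S_fej := by
  intro K r hK hr
  have hKpos : (0 : ℝ) < K := by exact_mod_cast hK
  have hg0 : ∀ t, 0 ≤ fejg K t := fun t => norm_nonneg _
  have hg1 := fejg_le_one K hK
  refine ⟨fun t => pow_nonneg (norm_nonneg _) _, fun t => pow_le_one₀ (hg0 t) (hg1 t), ?_, ?_, ?_⟩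
  · unfold fej
    have hKne : (K : ℂ) ≠ 0 := by exact_mod_cast hKpos.ne'
    simp [ee_zero, hKne]
  · intro t t'
    have h1 := fej_pow_sub (hg0 t) (hg1 t) (hg0 t') (hg1 t') (2 * r)
    have h2 := fejg_lip K hK t t'
    have h3 : |fej K r t - fej K r t'| ≤ ((2 * r : ℕ) : ℝ) * |fejg K t - fejg K t'| := h1
    have h4 : (0 : ℝ) ≤ ((2 * r : ℕ) : ℝ) := Nat.cast_nonneg _
    have h5 : Real.pi ≤ 7 / 2 := by linarith [Real.pi_lt_d2]
    have h6 : 0 ≤ (r : ℝ) * K * nn (t - t') :=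
      mul_nonneg (mul_nonneg (Nat.cast_nonneg _) hKpos.le) (nn_nonneg _)
    calc |fej K r t - fej K r t'| ≤ ((2 * r : ℕ) : ℝ) * |fejg K t - fejg K t'| := h3
      _ ≤ ((2 * r : ℕ) : ℝ) * (Real.pi * K * nn (t - t')) := mul_le_mul_of_nonneg_left h2 h4
      _ = 2 * Real.pi * (r * K * nn (t - t')) := by push_cast; ring
      _ ≤ 7 * (r * K * nn (t - t')) := mul_le_mul_of_nonneg_right (by linarith) h6
      _ = 7 * r * K * nn (t - t') := by ring
  · intro t ht
    have h1 : fejg K t ≤ 1 / 2 := by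
      have h2 := norm_geom_mul_le K t
      have h3 : fejg K t * (2 * (K * nn t)) ≤ 1 := by
        rw [fejg_eq K]
        generalize ‖∑ j ∈ range K, ee (j * t)‖ = A at h2 ⊢
        calc 1 / (K : ℝ) * A * (2 * (K * nn t)) = A * (2 * nn t) := by field_simp
          _ ≤ 1 := h2
      have h4 := hg0 t
      nlinarith
    have h5 : fej K r t = fejg K t ^ (2 * r) := rfl
    rw [h5, pow_mul]
    apply pow_le_pow_left₀ (sq_nonneg _)
    have := pow_le_pow_left₀ (hg0 t) h1 2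
    calc fejg K t ^ 2 ≤ (1 / 2) ^ 2 := this
      _ = 1 / 4 := by norm_num

end Pool.Agent.APP
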