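import Pool.Agent.Lib.MP_8a4e59_co.C.P_inv

set_option autoImplicit false

/-! The main term in a residue class (C5). (helper45) -/

namespace Pool.Agent.APP

open Finset

lemma mai_TT_nonneg (A : Finset ℤ) (x₀ : ℤ) (B : Finset ℤ) (d : ℤ) : 0 ≤ TT A x₀ B d := by
  unfold TT; positivity

lemma mai_TT_le (A : Finset ℤ) (x₀ : ℤ) (B : Finset ℤ) (d : ℤ) : TT A x₀ B d ≤ B.card := by
  unfold TT
  exact_mod_cast Finset.card_filter_le _ _

/-- shift comparison for one `k` -/
lemma mai_shift (w T : ℤ → ℝ) (n : ℕ) (e : ℕ) (k s : ℤ) (Y I : ℝ)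
    (hw : ∀ x : ℤ, ¬ (1 ≤ x ∧ x ≤ n) → w x = 0) (hT : ∀ x, |T x| ≤ Y) (hY : 0 ≤ Y)
    (hI : ∀ S : Finset ℤ, ∑ x ∈ S.filter (fun x => (e : ℤ) ∣ x - s), |w (x + e * k) - w x| ≤ I) :
    |∑ x ∈ (Finset.Icc (1 : ℤ) n).filter (fun x => (e : ℤ) ∣ x - s), w x * T x -
      ∑ x ∈ (Finset.Icc (1 : ℤ) n).filter (fun x => (e : ℤ) ∣ x - s), w x * T (x + e * k)| ≤ Y * I := by
  classical
  set V := Finset.Icc (1 : ℤ) n ∪ (Finset.Icc (1 : ℤ) n).image (fun x => x - e * k) with hV
  have e1 : ∑ x ∈ (Finset.Icc (1 : ℤ) n).filter (fun x => (e : ℤ) ∣ x - s), w x * T (x + e * k) =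
      ∑ x ∈ V.filter (fun x => (e : ℤ) ∣ x - s), w x * T (x + e * k) := by
    apply Finset.sum_subset
    · exact Finset.filter_subset_filter _ Finset.subset_union_left
    · intro x hx hx'
      have h1 := Finset.mem_filter.1 hx
      have : ¬ (1 ≤ x ∧ x ≤ n) := by
        intro hh
        exact hx' (Finset.mem_filter.2 ⟨Finset.mem_Icc.2 hh, h1.2⟩)
      rw [hw x this, zero_mul]
  have e2 : ∑ x ∈ (Finset.Icc (1 : ℤ) n).filter (fun x => (e : ℤ) ∣ x - s), w x * T x =
      ∑ x ∈ V.filter (fun x => (e : ℤ) ∣ x - s), w (x + e * k) * T (x + e * k) := by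
    have e3 : ∑ x ∈ (Finset.Icc (1 : ℤ) n).filter (fun x => (e : ℤ) ∣ x - s), w x * T x =
        ∑ x ∈ ((Finset.Icc (1 : ℤ) n).image (fun x => x - e * k)).filter (fun x => (e : ℤ) ∣ x - s),
          w (x + e * k) * T (x + e * k) := by
      apply Finset.sum_bij (fun x _ => x - e * k)
      · intro x hx
        have h1 := Finset.mem_filter.1 hx
        rw [Finset.mem_filter]
        refine ⟨Finset.mem_image_of_mem _ h1.1, ?_⟩
        have : x - (e:ℤ) * k - s = (x - s) - e * k := by ring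
        rw [this]
        exact dvd_sub h1.2 (dvd_mul_right _ _)
      · intro a _ b _ hab; linarith
      · intro y hy
        have h1 := Finset.mem_filter.1 hy
        obtain ⟨x, hx, hxy⟩ := Finset.mem_image.1 h1.1
        refine ⟨x, ?_, hxy⟩
        rw [Finset.mem_filter]
        refine ⟨hx, ?_⟩
        have : x - s = (y - s) + e * k := by rw [← hxy]; ring
        rw [this]
        exact dvd_add h1.2 (dvd_mul_right _ _)
      · intro x _
        rw [sub_add_cancel]
    rw [e3]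
    apply Finset.sum_subset
    · exact Finset.filter_subset_filter _ Finset.subset_union_right
    · intro x hx hx'
      have h1 := Finset.mem_filter.1 hx
      have : ¬ (1 ≤ x + e * k ∧ x + e * k ≤ n) := by
        intro hh
        apply hx'
        rw [Finset.mem_filter]
        refine ⟨Finset.mem_image.2 ⟨x + e * k, Finset.mem_Icc.2 hh, by ring⟩, h1.2⟩
      rw [hw _ this, zero_mul]
  rw [e1, e2, ← Finset.sum_sub_distrib]
  refine (Finset.abs_sum_le_sum_abs _ _).trans ?_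
  have h2 : ∀ x ∈ V.filter (fun x => (e : ℤ) ∣ x - s),
      |w (x + e * k) * T (x + e * k) - w x * T (x + e * k)| ≤ Y * |w (x + e * k) - w x| := by
    intro x _
    rw [← sub_mul, abs_mul, mul_comm]
    exact mul_le_mul_of_nonneg_right (hT _) (abs_nonneg _)
  refine (Finset.sum_le_sum h2).trans ?_
  rw [← Finset.mul_sum]
  exact mul_le_mul_of_nonneg_left (hI V) hY

set_option maxHeartbeats 1000000 in
theorem p_main5 (h : S_inv) (h0 : S_bet) : S_main5 := by
  intro A x₀ N ρY ρB ρ α F Θ K r q e s hK hr hq he hNq hρY hρB hKB hρ hρ4 hρ1 hα hα1 hF hyp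
  classical
  have hqR : (1:ℝ) ≤ q := by exact_mod_cast hq
  have heR : (1:ℝ) ≤ e := by exact_mod_cast he
  have hKR : (8:ℝ) ≤ K := by exact_mod_cast hK
  have hK1 : 1 ≤ K := by omega
  have hN : 0 < N := by linarith
  set Th := insert (1 / (4 * N)) Θ with hTh
  set n := ⌊N / q⌋₊ with hn
  set Q := (1 / 4 : ℝ) ^ r with hQ
  have hQ0 : 0 < Q := by positivity
  set b0 : ℤ → ℝ := fun x => bet K r Th ((q : ℝ) * x) with hb0
  have hb0nn : ∀ x, 0 ≤ b0 x := fun x => (h0 K r Th hK1 hr).1 _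
  set X := cls b0 n e s with hX
  set BY := bohr N Θ ρY with hBY
  set B3 := bohr (N / (q * e : ℕ)) (scl (q * e) Θ) ρ with hB3
  set Y := (BY.card : ℝ) with hYdef
  have hY0 : 0 ≤ Y := Nat.cast_nonneg _
  have hqe : (0:ℝ) < ((q * e : ℕ) : ℝ) := by exact_mod_cast Nat.mul_pos hq he
  have hc3 : 0 < (B3.card : ℝ) := bohr_card_pos (by positivity) hρ.le
  have hn1 : (n:ℝ) ≤ N / q := Nat.floor_le (by positivity)
  set T : ℤ → ℝ := fun x => TT A x₀ BY ((q:ℤ) * x) with hT
  set P := (Finset.Icc (1 : ℤ) n).filter (fun x => (e : ℤ) ∣ x - s) with hP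
  set w := wgt K r Th q 1 n with hw
  have hw1 : ∀ x ∈ P, w x = b0 x := by
    intro x hx
    have h1 := Finset.mem_Icc.1 (Finset.mem_filter.1 hx).1
    rw [hw]; unfold wgt
    rw [if_pos h1]
  have hw0 : ∀ x : ℤ, ¬ (1 ≤ x ∧ x ≤ n) → w x = 0 := by
    intro x hx
    rw [hw]; unfold wgt
    rw [if_neg hx]
  have hTabs : ∀ x, |T x| ≤ Y := by
    intro x
    rw [abs_of_nonneg (mai_TT_nonneg _ _ _ _)]
    exact mai_TT_le _ _ _ _
  set I := 200 * r * K * (Θ.card + 1) * ρ * X + 4 * Q * (N / (q * e) + 1) with hI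
  set S := ∑ x ∈ P, b0 x * T x with hS
  -- for each k
  have hk : ∀ k ∈ B3, |S - ∑ x ∈ P, b0 x * T (x + e * k)| ≤ Y * I := by
    intro k hkb
    have := mai_shift w T n e k s Y I hw0 hTabs hY0 (fun S' =>
      h N ρ Θ K r q e k s hK hr hq he hNq hρ hρ4 hρ1 hkb S')
    have e1 : ∑ x ∈ P, w x * T x = S := Finset.sum_congr rfl (fun x hx => by rw [hw1 x hx])
    have e2 : ∑ x ∈ P, w x * T (x + e * k) = ∑ x ∈ P, b0 x * T (x + e * k) :=
      Finset.sum_congr rfl (fun x hx => by rw [hw1 x hx])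
    rw [← e1, ← e2]; exact this
  -- sum over k
  have hsumk : |(B3.card : ℝ) * S - ∑ x ∈ P, b0 x * ∑ k ∈ B3, T (x + e * k)| ≤ B3.card * (Y * I) := by
    have e1 : (B3.card : ℝ) * S - ∑ x ∈ P, b0 x * ∑ k ∈ B3, T (x + e * k) =
        ∑ k ∈ B3, (S - ∑ x ∈ P, b0 x * T (x + e * k)) := by
      rw [Finset.sum_sub_distrib, Finset.sum_const, nsmul_eq_mul]
      congr 1
      rw [Finset.sum_comm]
      exact Finset.sum_congr rfl (fun x _ => Finset.mul_sum _ _ _)
    rw [e1]
    refine (Finset.abs_sum_le_sum_abs _ _).trans ((Finset.sum_le_sum hk).trans ?_)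
    rw [Finset.sum_const, nsmul_eq_mul]
  -- inner sums
  set G := α ^ 3 * Y * B3.card with hG
  have hα3 : 0 ≤ α ^ 3 := by positivity
  have hα31 : α ^ 3 ≤ 1 := pow_le_one₀ hα hα1
  have hinner : ∀ x ∈ P, |b0 x * ∑ k ∈ B3, T (x + e * k) - b0 x * G| ≤
      b0 x * (F * α ^ 3 * Y * B3.card) + Q * (Y * B3.card) := by
    intro x hx
    have hx1 := Finset.mem_Icc.1 (Finset.mem_filter.1 hx).1
    have hx1R : (1:ℝ) ≤ x := by exact_mod_cast hx1.1
    have hxn : (x:ℝ) ≤ N / q := le_trans (by exact_mod_cast hx1.2) hn1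
    have e1 : ∑ k ∈ B3, T (x + e * k) = ∑ k ∈ B3, TT A x₀ BY ((q:ℤ) * x + ((q * e : ℕ) : ℤ) * k) := by
      apply Finset.sum_congr rfl
      intro k _
      simp only [hT]
      congr 1
      push_cast; ring
    have hFnn : 0 ≤ b0 x * (F * α ^ 3 * Y * B3.card) := by
      have := hb0nn x; positivity
    have hQnn : 0 ≤ Q * (Y * B3.card) := by positivity
    rw [← mul_sub, abs_mul, abs_of_nonneg (hb0nn x)]
    by_cases hb : ((q:ℤ) * x) ∈ bohr N Θ ρB
    · have h2 := hyp _ hb
      rw [← e1] at h2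
      have := mul_le_mul_of_nonneg_left h2 (hb0nn x)
      linarith
    · -- tiny weight
      have hq0 : b0 x ≤ Q := by
        apply (h0 K r Th hK1 hr).2.2.2
        rw [mem_bohr] at hb
        by_cases hc : |(((q:ℤ) * x : ℤ) : ℝ)| ≤ ρB * N
        · have : ∃ θ ∈ Θ, ρB < nn (θ * (((q:ℤ) * x : ℤ) : ℝ)) := by
            by_contra hcon
            push Not at hcon
            exact hb ⟨hc, hcon⟩
          obtain ⟨θ, hθ, h3⟩ := this
          refine ⟨θ, Finset.mem_insert_of_mem hθ, ?_⟩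
          push_cast at h3
          nlinarith
        · push Not at hc
          refine ⟨1 / (4 * N), Finset.mem_insert_self _ _, ?_⟩
          push_cast at hc
          rw [abs_of_nonneg (by positivity)] at hc
          rw [le_div_iff₀ (by linarith)] at hxn
          have e2 : 1 / (4 * N) * ((q : ℝ) * x) = (q * x) / (4 * N) := by ring
          have h4 : (q * x) / (4 * N) ≤ 1 / 2 := by
            rw [div_le_iff₀ (by linarith)]; linarith
          have h5 : ρB / 4 ≤ (q * x) / (4 * N) := by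
            rw [le_div_iff₀ (by linarith)]; linarith
          rw [e2, inv_nn (by linarith) h4]
          nlinarith
      have h6 : |∑ k ∈ B3, T (x + e * k) - G| ≤ Y * B3.card := by
        have h7 : 0 ≤ ∑ k ∈ B3, T (x + e * k) := Finset.sum_nonneg (fun k _ => mai_TT_nonneg _ _ _ _)
        have h8 : ∑ k ∈ B3, T (x + e * k) ≤ B3.card * Y := by
          have := Finset.sum_le_sum (fun k (_ : k ∈ B3) => mai_TT_le A x₀ BY ((q:ℤ) * (x + e * k)))
          rw [Finset.sum_const, nsmul_eq_mul] at this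
          exact this
        have h9 : 0 ≤ G := by positivity
        have h10 : G ≤ 1 * (Y * B3.card) := by
          rw [hG, mul_assoc]
          exact mul_le_mul_of_nonneg_right hα31 (by positivity)
        rw [abs_le]; constructor <;> linarith
      have h11 : b0 x * |∑ k ∈ B3, T (x + e * k) - G| ≤ Q * (Y * B3.card) :=
        mul_le_mul hq0 h6 (abs_nonneg _) hQ0.le
      linarith
  have hPc : (P.card : ℝ) ≤ N / (q * e) + 1 := by
    have b2 := inv_count e he n s
    have b4 : (n:ℝ) / e ≤ N / (q * e) := by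
      rw [← div_div]
      exact div_le_div_of_nonneg_right hn1 (by linarith)
    linarith
  have hX' : ∑ x ∈ P, b0 x = X := rfl
  have hsumx : |∑ x ∈ P, b0 x * ∑ k ∈ B3, T (x + e * k) - X * G| ≤
      X * (F * α ^ 3 * Y * B3.card) + P.card * (Q * (Y * B3.card)) := by
    have e1 : ∑ x ∈ P, b0 x * ∑ k ∈ B3, T (x + e * k) - X * G =
        ∑ x ∈ P, (b0 x * ∑ k ∈ B3, T (x + e * k) - b0 x * G) := by
      rw [Finset.sum_sub_distrib, ← Finset.sum_mul, hX']
    rw [e1]
    refine (Finset.abs_sum_le_sum_abs _ _).trans ((Finset.sum_le_sum hinner).trans ?_)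
    rw [Finset.sum_add_distrib, ← Finset.sum_mul, hX', Finset.sum_const, nsmul_eq_mul]
  have hX0 : 0 ≤ X := nea_cls_nonneg h0 K r Th hK1 hr q n e s
  -- combine
  have htot : |(B3.card : ℝ) * S - X * G| ≤ B3.card * (Y * I) +
      (X * (F * α ^ 3 * Y * B3.card) + (N / (q * e) + 1) * (Q * (Y * B3.card))) := by
    have h1 : (B3.card : ℝ) * S - X * G = ((B3.card : ℝ) * S - ∑ x ∈ P, b0 x * ∑ k ∈ B3, T (x + e * k)) +
        (∑ x ∈ P, b0 x * ∑ k ∈ B3, T (x + e * k) - X * G) := by ring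
    rw [h1]
    refine (abs_add_le _ _).trans (add_le_add hsumk (hsumx.trans ?_))
    have := mul_le_mul_of_nonneg_right hPc (show 0 ≤ Q * (Y * B3.card) by positivity)
    linarith
  have e3 : (B3.card : ℝ) * S - X * G = B3.card * (S - α ^ 3 * Y * X) := by rw [hG]; ring
  rw [e3, abs_mul, abs_of_pos hc3] at htot
  have e4 : (B3.card : ℝ) * (Y * I) +
      (X * (F * α ^ 3 * Y * B3.card) + (N / (q * e) + 1) * (Q * (Y * B3.card))) =
      B3.card * (Y * (I + F * α ^ 3 * X + Q * (N / (q * e) + 1))) := by ring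
  rw [e4] at htot
  have h5 := le_of_mul_le_mul_left htot hc3
  refine h5.trans ?_
  apply mul_le_mul_of_nonneg_left _ hY0
  rw [hI]
  have h6 : 0 ≤ Q * (N / (q * e) + 1) := by positivity
  have h7 : 8 * Q * (N / (q * e) + 1) = 8 * (Q * (N / (q * e) + 1)) := by ring
  rw [h7]
  linarith

end Pool.Agent.APP
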