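import Pool.Agent.Lib.MP_8a4e59_co.C.Defs
import Pool.Agent.Lib.MP_8a4e59_co.IfaceC

set_option autoImplicit false

/-!
Statements of part C of the proof of MP_8a4e59_co: Fejer weights, resonance elimination,
equidistribution, pure sieve, main term at level `Q₀`.   (helper10)
Every `S_x` is proved in `C/P/<x>.lean` as `theorem p_x : S_x`.
-/

namespace Pool.Agent.APP

open Finset

/-- the product of the normalised Dirichlet kernels; `bet K r Th z = gam K Th z ^ (2 r)` -/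
noncomputable def gam (K : ℕ) (Th : Finset ℝ) (z : ℝ) : ℝ :=
  ∏ θ ∈ Th, ‖(1 / (K : ℂ)) * ∑ j ∈ range K, ee (j * (θ * z))‖

/-- (C0a) The Bohr weight is a convex combination of exponentials with small frequencies.
Proof. `|D_K(t)/K|² = K⁻² ∑_{j,j'<K} ee((j-j')t)` is a convex combination of `ee(n t)`, `|n| ≤ K-1`;
take products (`r` times, and over `θ ∈ Th`). -/
def S_C0a : Prop := ∀ (K r : ℕ) (Th : Finset ℝ), 1 ≤ K →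
  ∃ (k : ℕ) (c ζ : Fin k → ℝ), (∀ i, 0 ≤ c i) ∧ ∑ i, c i = 1 ∧
    (∀ i, ∃ v : ℝ → ℤ, (∀ θ ∈ Th, |v θ| ≤ ((r * (K - 1) : ℕ) : ℤ)) ∧ ζ i = ∑ θ ∈ Th, (v θ : ℝ) * θ) ∧
    ∀ z : ℝ, (bet K r Th z : ℂ) = ∑ i, (c i : ℂ) * ee (ζ i * z)

/-- (C0b) Elementary bounds for the Bohr weight.
Proof. `fej ≤ 1` trivially; decay from `norm_geom_mul_le`: `|D_K(t)| ≤ 1/(2 nn t)`;
`| |D_K(t)/K| - |D_K(t')/K| | ≤ K⁻¹ ∑_j 2 π j nn(t-t') ≤ π K nn(t-t')` (`norm_ee_sub_ee_le`), telescoping over `Th`;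
`|a^(2r) - b^(2r)| ≤ 2 r |a-b|` on `[0,1]`, and `|a^(2r) - b^(2r)| ≤ 2 r |a - b| (a^(2r-1) + b^(2r-1))` with
`a^(2r-1) ≤ 2 a^(2r) + 2^(1-2r)` (cases `a ≥ 1/2`, `a < 1/2`). -/
def S_C0b : Prop := ∀ (K r : ℕ) (Th : Finset ℝ), 1 ≤ K → 1 ≤ r →
  (∀ z, bet K r Th z = gam K Th z ^ (2 * r)) ∧ (∀ z, 0 ≤ gam K Th z ∧ gam K Th z ≤ 1) ∧
  (∀ z, bet K r Th (-z) = bet K r Th z) ∧ bet K r Th 0 = 1 ∧
  (∀ z, ∀ θ ∈ Th, 0 < nn (θ * z) → bet K r Th z ≤ (1 / (2 * K * nn (θ * z))) ^ (2 * r)) ∧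
  (∀ z z', |gam K Th z - gam K Th z'| ≤ Real.pi * K * ∑ θ ∈ Th, nn (θ * (z - z'))) ∧
  (∀ z z', |bet K r Th z - bet K r Th z'| ≤ 20 * r * K * ∑ θ ∈ Th, nn (θ * (z - z'))) ∧
  (∀ z z', |bet K r Th z - bet K r Th z'| ≤
    4 * Real.pi * r * K * (∑ θ ∈ Th, nn (θ * (z - z'))) * (bet K r Th z + bet K r Th z' + 2 * (1 / 4) ^ r)) ∧
  (∀ z, 1 - 20 * r * K * ∑ θ ∈ Th, nn (θ * z) ≤ bet K r Th z)

/-- inverse mass bound -/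
def YB (K r R : ℕ) : ℕ := (200 * r * K * (R + 1)) ^ (R + 1)

/-- (C1) Mass.  Proof. With `ρ = 1/(40 r K (R+1))`, `M = ⌈1/ρ⌉ = 40 r K (R+1)` put `x ∈ [0,N]` into the
`M^R` boxes of `(frac (θ q x))_θ`; the largest class has at least `(N+1)/M^R` elements; subtracting its smallest element
one gets at least `(N+1)/M^R - 1 ≥ N/(2 M^R)` integers `x ∈ [1,N]` with `nn(θ q x) ≤ ρ`, where
`bet ≥ 1 - 20 r K R ρ ≥ 1/2` (C0b). Here `R = #Th`. -/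
def S_C1 : Prop := ∀ (K r : ℕ) (Th : Finset ℝ) (q N : ℕ), 1 ≤ K → 1 ≤ r → YB K r Th.card ≤ N →
  (N : ℝ) ≤ (YB K r Th.card : ℝ) * mass (wgt K r Th q 1 N) N

/-- (C2) Elimination of the small resonances.  Proof (greedy). `q₀ = 1`; as long as there is a violation
`(e_j, a_j, v_j)` for `q_{j-1}` put `q_j = q_{j-1} e_j`. Then `v_j·θ = c_j/q_j + δ_j` with `gcd(c_j,e_j)=1`, `|δ_j| < τ`.
If `J` steps were possible, `(2 J H + 1)^R < 2^J` gives two different subsets of `v_1..v_J` with the same sum: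
`∑_{j ≤ l} ε_j v_j = 0` on `Th`, `ε_j ∈ {-1,0,1}`, `ε_l = ±1`. Multiply `∑ ε_j (c_j/q_j + δ_j) = 0` by `q_l`:
`ε_l c_l + e_l (integer) = - q_l ∑ ε_j δ_j`, of absolute value `< Y^J J τ < 1`, so it is `0`, `e_l ∣ c_l`, contradiction. -/
def S_C2 : Prop := ∀ (Th : Finset ℝ) (H Y J W₀ : ℕ) (τ : ℝ), 1 ≤ Y → 1 ≤ W₀ →
  (2 * J * H + 1) ^ Th.card < 2 ^ J → 0 < τ → (J : ℝ) * τ * (Y : ℝ) ^ J < 1 →
  ∃ q : ℕ, 1 ≤ q ∧ q ≤ Y ^ J ∧ q.Coprime W₀ ∧ ∀ e : ℕ, 2 ≤ e → e ≤ Y → e.Coprime (W₀ * q) →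
    ∀ a : ℤ, Int.gcd a e = 1 → ∀ v : ℝ → ℤ, (∀ θ ∈ Th, |v θ| ≤ (H : ℤ)) →
      τ ≤ nn ((q : ℝ) * (∑ θ ∈ Th, (v θ : ℝ) * θ) - (a : ℝ) / e)

/-- equidistribution of the weight `b` on `[1,N]` in the classes to moduli `e ≤ D` coprime to `m` -/
def Equi (b : ℤ → ℝ) (N D m Y : ℕ) (τ : ℝ) : Prop :=
  ∃ (k : ℕ) (c : Fin k → ℝ) (eb : Fin k → ℕ), (∀ i, 0 ≤ c i) ∧ ∑ i, c i = 1 ∧
    (∀ i, eb i = 0 ∨ Y < eb i) ∧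
    ∀ e : ℕ, 1 ≤ e → e ≤ D → e.Coprime m → ∀ r : ℤ,
      |cls b N e r - mass b N / e| ≤ ((N : ℝ) / e) * ∑ i ∈ univ.filter (fun i => eb i ∣ e), c i + 1 / τ

/-- (C3) Equidistribution.  Proof. `1[x ≡ r (e)] = e⁻¹ ∑_{a mod e} ee(a (x-r)/e)`, so the difference is at most
`e⁻¹ ∑_{a ≠ 0} ∑_i c_i |∑_{x=1}^N ee((ζ_i + a/e) x)| ≤ e⁻¹ ∑_{a ≠ 0} ∑_i c_i (N 1[nn(ζ_i + a/e) < τ] + 1/(2τ))`.
For each `i` there is at most one reduced fraction `a/f`, `2 ≤ f ≤ D`, with `nn(ζ_i + a/f) < τ` (two of them have distance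
`≥ D⁻²` mod 1, and `2 τ D² < 1`); `eb i` is its denominator (`0` if there is none or if it is not coprime to `m`);
for `e` coprime to `m` the contribution is `(N/e) ∑_{eb i ∣ e} c_i`. By the hypothesis `eb i > Y`. -/
def S_C3 : Prop := ∀ (k : ℕ) (c ζ : Fin k → ℝ) (b : ℤ → ℝ) (N Y D m : ℕ) (τ : ℝ), (∀ i, 0 ≤ c i) →
  ∑ i, c i = 1 → (∀ x : ℤ, 1 ≤ x → x ≤ N → (b x : ℂ) = ∑ i, (c i : ℂ) * ee (ζ i * x)) →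
  0 < τ → 2 * τ * (D : ℝ) ^ 2 < 1 →
  (∀ i, ∀ e : ℕ, 2 ≤ e → e ≤ Y → e.Coprime m → ∀ a : ℤ, Int.gcd a e = 1 → τ ≤ nn (ζ i - (a : ℝ) / e)) →
  Equi b N D m Y τ

open Classical in
/-- (C4) Brun pure sieve (Bonferroni), abstract form. `S` finite set with weights `w`, `bad i p`.
Proof. For a set of size `b`: `|1[b=0] - ∑_{j ≤ k} (-1)^j C(b,j)| ≤ C(b,k+1)` (since `∑_{j ≤ k} (-1)^j C(b,j) = (-1)^k C(b-1,k)`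
for `b ≥ 1`); sum over `i` with weight `w`; the same for the product measure:
`|∏(1-h p) - ∑_{|T| ≤ k} (-1)^|T| ∏_T h| ≤ ∑_{|T|=k+1} ∏_T h ≤ (∑ h)^(k+1)/(k+1)!` (induction on `P`, or the first inequality
for the product measure on the subsets of `P`). -/
def S_C4 : Prop := ∀ (ι : Type) (S : Finset ι) (w : ι → ℝ) (P : Finset ℕ) (bad : ι → ℕ → Prop) (h : ℕ → ℝ)
  (M : ℝ) (err : Finset ℕ → ℝ) (k : ℕ), (∀ i ∈ S, 0 ≤ w i) → (∀ p ∈ P, 0 ≤ h p ∧ h p ≤ 1) → 0 ≤ M →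
  (∀ T ∈ P.powerset, T.card ≤ k + 1 →
    |∑ i ∈ S.filter (fun i => ∀ p ∈ T, bad i p), w i - M * ∏ p ∈ T, h p| ≤ err T) →
  |∑ i ∈ S.filter (fun i => ∀ p ∈ P, ¬ bad i p), w i - M * ∏ p ∈ P, (1 - h p)| ≤
    2 * M * (∑ p ∈ P, h p) ^ (k + 1) / ((k + 1).factorial : ℝ) +
      ∑ T ∈ P.powerset.filter (fun T => T.card ≤ k + 1), err T

/-- (C5) Main term in the class `r₀` mod `e`, from the flatness at modulus `q e`.  `N` real (`= N_W`), `n₂ = ⌊N/q⌋`,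
`Th = Θ ∪ {1/(4N)}`, `b = wgt K r Th q 1 n₂`.  Proof (helper24). Average over `k ∈ B₃ = bohr (N/(qe)) (qe Θ) ρ₃`:
`∑_{x ≡ r₀} b(x) t(x) = |B₃|⁻¹ ∑_k ∑_{x ≡ r₀} b(x+ek) t(x+ek)` (`b` zero outside `[1,n₂]`).
(1) `|b(x+ek) - b(x)| ≤ lam (b(x) + b(x+ek) + 2·4^(-r))` for `x, x+ek ∈ [1,n₂]`, `lam = 4 π r K (R+1) ρ₃` (C0b; `nn(θ q e k) ≤ ρ₃`,
`nn(q e k/(4N)) ≤ ρ₃`).
(2) boundary at `n₂`: for `n₂ - |ek| ≤ x ≤ n₂` the frequency `1/(4N)` gives `nn(q x/(4N)) ≥ 1/16`, `bet ≤ 4^(-r)` (`K ≥ 16`).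
(3) boundary at `0`: with `z₀ = |ek|`, `j ≤ L := ⌊1/(12 π r K (R+1) ρ₃)⌋`, `z₀ ≥ 1`: `bet(q x) ≤ 2 bet(q(x+j z₀)) + 2·4^(-r)` for
`0 ≤ x < z₀`; average over `j ≤ L`: `∑_{0 ≤ x < z₀, x ≡ r₀} bet(q x) ≤ (2/L) ∑_{0 < x ≤ n₂, x ≡ r₀} bet(q x) + 2·4^(-r)(n₂/e+1)` .
(4) the inner average of `t(x+ek)` is `(1 + O(fl)) α³|BY|` if `q x ∈ bohr N Θ ρ`, and otherwise `bet(q x) ≤ 4^(-r)`
(`K ≥ 16/ρ`). (5) `∑_{x ≡ r₀} b = mass/e (1 + O(fl))` by hypothesis. -/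
def S_C5 : Prop := ∀ (A : Finset ℤ) (N ρ ρ₃ α fl : ℝ) (Θ : Finset ℝ) (BY : Finset ℤ) (K r q e : ℕ), 1 ≤ N →
  0 < ρ → ρ ≤ 1 / 4 → 0 < ρ₃ → 0 < α → α ≤ 1 → 0 < fl → fl ≤ 1 / 10 → 1 ≤ r → 1 ≤ q → 1 ≤ e →
  (q : ℝ) * e ≤ N → 16 / ρ ≤ K →
  1000 * (r * K * (Θ.card + 1)) * ρ₃ ≤ fl * α ^ 3 →
  (∀ d₀ ∈ bohr N Θ ρ,
    |∑ k ∈ bohr (N / (q * e : ℕ)) (scl (q * e) Θ) ρ₃, TT A 0 BY (d₀ + ((q * e : ℕ) : ℤ) * k) -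
      α ^ 3 * (BY.card : ℝ) * ((bohr (N / (q * e : ℕ)) (scl (q * e) Θ) ρ₃).card : ℝ)| ≤
      fl * α ^ 3 * (BY.card : ℝ) * ((bohr (N / (q * e : ℕ)) (scl (q * e) Θ) ρ₃).card : ℝ)) →
  100 * (1 / 4 : ℝ) ^ r * (⌊N / q⌋₊ : ℝ) ≤
    fl * α ^ 3 * mass (wgt K r (insert (1 / (4 * N)) Θ) q 1 ⌊N / q⌋₊) ⌊N / q⌋₊ →
  ∀ r₀ : ℤ,
  |cls (wgt K r (insert (1 / (4 * N)) Θ) q 1 ⌊N / q⌋₊) ⌊N / q⌋₊ e r₀ -
    mass (wgt K r (insert (1 / (4 * N)) Θ) q 1 ⌊N / q⌋₊) ⌊N / q⌋₊ / e| ≤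
    fl * (mass (wgt K r (insert (1 / (4 * N)) Θ) q 1 ⌊N / q⌋₊) ⌊N / q⌋₊ / e) →
  |cls (fun x => wgt K r (insert (1 / (4 * N)) Θ) q 1 ⌊N / q⌋₊ x * TT A 0 BY (q * x)) ⌊N / q⌋₊ e r₀ -
    α ^ 3 * (BY.card : ℝ) * mass (wgt K r (insert (1 / (4 * N)) Θ) q 1 ⌊N / q⌋₊) ⌊N / q⌋₊ / e| ≤
    20 * fl * (α ^ 3 * (BY.card : ℝ) * mass (wgt K r (insert (1 / (4 * N)) Θ) q 1 ⌊N / q⌋₊) ⌊N / q⌋₊ / e)

end Pool.Agent.APP
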