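import Pool.Agent.Lib.MP_8a4e59_co.C.Defs

set_option autoImplicit false

/-!
Statements of the pieces of part C (helper37): Fejer powers, Bohr weights, elimination of
resonances, equidistribution, and the main term.
Every `S_x` is proved in `C/P_x.lean` as `theorem p_x : S_x` (or from the listed hypotheses).
-/

namespace Pool.Agent.APP

open Finset

/-- (C0a) Fejer powers: values, Lipschitz bound, decay. -/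
def S_fej : Prop := ∀ K r : ℕ, 1 ≤ K → 1 ≤ r →
  (∀ t, 0 ≤ fej K r t) ∧ (∀ t, fej K r t ≤ 1) ∧ fej K r 0 = 1 ∧
  (∀ t t' : ℝ, |fej K r t - fej K r t'| ≤ 7 * r * K * nn (t - t')) ∧
  (∀ t : ℝ, 1 ≤ K * nn t → fej K r t ≤ (1 / 4) ^ r)

/-- (C0b) Fourier expansion of one Fejer power. -/
def S_fexp : Prop := ∀ K r : ℕ, 1 ≤ K → 1 ≤ r →
  ∃ (m : ℕ) (c : Fin m → ℝ) (v : Fin m → ℤ), (∀ i, 0 ≤ c i) ∧ ∑ i, c i = 1 ∧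
    (∀ i, |v i| ≤ (r * (K - 1) : ℕ)) ∧
    ∀ t : ℝ, (fej K r t : ℂ) = ∑ i, (c i : ℂ) * ee (v i * t)

/-- (C0c) Fourier expansion of the Bohr weight. -/
def S_bexp : Prop := ∀ (K r : ℕ) (Th : Finset ℝ), 1 ≤ K → 1 ≤ r →
  ∃ (m : ℕ) (c : Fin m → ℝ) (v : Fin m → ℝ → ℤ), (∀ i, 0 ≤ c i) ∧ ∑ i, c i = 1 ∧
    (∀ i θ, |v i θ| ≤ (r * (K - 1) : ℕ)) ∧
    ∀ z : ℝ, (bet K r Th z : ℂ) = ∑ i, (c i : ℂ) * ee ((∑ θ ∈ Th, (v i θ : ℝ) * θ) * z)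

/-- (C0d) expansion of `1_{M | d} β(d / W)`. -/
def S_wexp : Prop := ∀ (K r W M : ℕ) (Th : Finset ℝ), 1 ≤ K → 1 ≤ r → 1 ≤ W → 1 ≤ M →
  ∃ (m : ℕ) (c ξ : Fin m → ℝ), (∀ i, 0 ≤ c i) ∧ ∑ i, c i = 1 ∧
    ∀ d : ℤ, ∑ i, (c i : ℂ) * ee (ξ i * d) =
      (((if (M : ℤ) ∣ d then bet K r Th ((d : ℝ) / W) else 0 : ℝ)) : ℂ)

/-- (C0e) basic bounds for the Bohr weight. -/
def S_bet : Prop := ∀ (K r : ℕ) (Th : Finset ℝ), 1 ≤ K → 1 ≤ r →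
  (∀ z, 0 ≤ bet K r Th z) ∧ (∀ z, bet K r Th z ≤ 1) ∧
  (∀ z : ℝ, 1 - ∑ θ ∈ Th, 7 * r * K * nn (θ * z) ≤ bet K r Th z) ∧
  (∀ z : ℝ, (∃ θ ∈ Th, 1 ≤ K * nn (θ * z)) → bet K r Th z ≤ (1 / 4) ^ r)

/-- (C0f) additive Lipschitz bound. -/
def S_alip : Prop := ∀ (K r : ℕ) (Th : Finset ℝ), 1 ≤ K → 1 ≤ r → ∀ z w : ℝ,
  |bet K r Th (z + w) - bet K r Th z| ≤ ∑ θ ∈ Th, 7 * r * K * nn (θ * w)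

/-- (C5a) multiplicative Lipschitz bound. -/
def S_mlip : Prop := ∀ (K r : ℕ) (Th : Finset ℝ) (ρ : ℝ), 1 ≤ K → 1 ≤ r → 0 ≤ ρ → ∀ z w : ℝ,
  (∀ θ ∈ Th, nn (θ * w) ≤ ρ) →
  |bet K r Th (z + w) - bet K r Th z| ≤
    (4 * Real.pi * r * K * Th.card * ρ) * (bet K r Th z + bet K r Th (z + w) + (1 / 4) ^ r)

/-- (C1) Mass of the weight. -/
def S_mass : Prop := ∀ (N : ℝ) (Θ : Finset ℝ) (K r q : ℕ), 1 ≤ K → 1 ≤ r → 1 ≤ q →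
  2 * (400 * (r * K * (Θ.card + 1) : ℝ)) ^ (Θ.card + 1) ≤ N / q →
  (N / q) / (400 * (r * K * (Θ.card + 1) : ℝ)) ^ (Θ.card + 1) ≤
    mass (fun x => bet K r (insert (1 / (4 * N)) Θ) ((q : ℝ) * x)) ⌊N / q⌋₊

/-- (C2) Elimination of resonances. -/
def S_qst : Prop := ∀ (Th : Finset ℝ) (H Y J W₀ : ℕ) (τ : ℝ), 2 ≤ Y → 1 ≤ W₀ → 0 < τ →
  (2 * J * H + 1) ^ Th.card < 2 ^ J → (J : ℝ) * (Y : ℝ) ^ J * τ < 1 →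
  ∃ q : ℕ, 1 ≤ q ∧ q ≤ Y ^ J ∧ q.Coprime W₀ ∧
    ∀ (e : ℕ) (a : ℤ) (v : ℝ → ℤ), 2 ≤ e → e ≤ Y → e.Coprime (W₀ * q) → Int.gcd a e = 1 →
      (∀ θ ∈ Th, |v θ| ≤ (H : ℤ)) →
      τ ≤ nn ((q : ℝ) * (∑ θ ∈ Th, (v θ : ℝ) * θ) - a / e)

/-- (C3) Equidistribution in residue classes. -/
def S_equi : Prop := ∀ (m : ℕ) (c ζ : Fin m → ℝ) (τ : ℝ) (Y D W₀ : ℕ), (∀ i, 0 ≤ c i) →
  ∑ i, c i ≤ 1 → 0 < τ → 2 * τ * (D : ℝ) ^ 2 < 1 →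
  (∀ (i : Fin m) (e : ℕ) (a : ℤ), 2 ≤ e → e ≤ Y → e.Coprime W₀ → Int.gcd a e = 1 →
    τ ≤ nn (ζ i - a / e)) →
  ∃ E : Fin m → ℕ, (∀ i, E i = 0 ∨ Y < E i) ∧
    ∀ (b : ℤ → ℝ) (u : ℤ) (N e : ℕ) (r : ℤ), 1 ≤ u → 1 ≤ e → e ≤ D → e.Coprime W₀ →
      (∀ x : ℤ, (b x : ℂ) = ∑ i, (c i : ℂ) * ee (ζ i * x)) →
      |∑ x ∈ (Finset.Icc u (N : ℤ)).filter (fun x => (e : ℤ) ∣ x - r), b x -
          (∑ x ∈ Finset.Icc u (N : ℤ), b x) / e| ≤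
        (1 / (e : ℝ)) * ((N : ℝ) * ∑ i ∈ Finset.univ.filter (fun i => E i ∣ e), c i + e / (2 * τ))

/-- (C5b) Mass near zero. -/
def S_near : Prop := ∀ (N ρ : ℝ) (Θ : Finset ℝ) (K r q e : ℕ) (k s : ℤ), 1 ≤ K → 1 ≤ r → 1 ≤ q →
  1 ≤ e → 4 * (q : ℝ) ≤ N → 0 < ρ → 12 * Real.pi * r * K * (Θ.card + 1) * ρ ≤ 1 → 0 < k →
  k ∈ bohr (N / (q * e : ℕ)) (scl (q * e) Θ) ρ →
  ∑ x ∈ (Finset.Icc (1 : ℤ) (e * k)).filter (fun x => (e : ℤ) ∣ x - s),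
      bet K r (insert (1 / (4 * N)) Θ) ((q : ℝ) * x) ≤
    48 * Real.pi * r * K * (Θ.card + 1) * ρ *
      cls (fun x => bet K r (insert (1 / (4 * N)) Θ) ((q : ℝ) * x)) ⌊N / q⌋₊ e s +
    2 * (1 / 4) ^ r * k

/-- (C5c) Almost invariance of the cut off weight under Bohr shifts. -/
def S_inv : Prop := ∀ (N ρ : ℝ) (Θ : Finset ℝ) (K r q e : ℕ) (k s : ℤ), 8 ≤ K → 1 ≤ r → 1 ≤ q →
  1 ≤ e → 4 * (q : ℝ) ≤ N → 0 < ρ → ρ ≤ 1 / 4 → 12 * Real.pi * r * K * (Θ.card + 1) * ρ ≤ 1 →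
  k ∈ bohr (N / (q * e : ℕ)) (scl (q * e) Θ) ρ → ∀ S : Finset ℤ,
  ∑ x ∈ S.filter (fun x => (e : ℤ) ∣ x - s),
      |wgt K r (insert (1 / (4 * N)) Θ) q 1 ⌊N / q⌋₊ (x + e * k) -
        wgt K r (insert (1 / (4 * N)) Θ) q 1 ⌊N / q⌋₊ x| ≤
    200 * r * K * (Θ.card + 1) * ρ *
      cls (fun x => bet K r (insert (1 / (4 * N)) Θ) ((q : ℝ) * x)) ⌊N / q⌋₊ e s +
    4 * (1 / 4) ^ r * (N / (q * e) + 1)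

/-- (C5) The main term in a residue class. -/
def S_main5 : Prop := ∀ (A : Finset ℤ) (x₀ : ℤ) (N ρY ρB ρ α F : ℝ) (Θ : Finset ℝ)
  (K r q e : ℕ) (s : ℤ), 8 ≤ K → 1 ≤ r → 1 ≤ q → 1 ≤ e → 4 * (q : ℝ) ≤ N → 0 < ρY → 0 < ρB →
  4 ≤ K * ρB → 0 < ρ → ρ ≤ 1 / 4 → 12 * Real.pi * r * K * (Θ.card + 1) * ρ ≤ 1 → 0 ≤ α → α ≤ 1 →
  0 ≤ F →
  (∀ d₀ ∈ bohr N Θ ρB,
    |∑ k ∈ bohr (N / (q * e : ℕ)) (scl (q * e) Θ) ρ,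
        TT A x₀ (bohr N Θ ρY) (d₀ + ((q * e : ℕ) : ℤ) * k) -
      α ^ 3 * ((bohr N Θ ρY).card : ℝ) * ((bohr (N / (q * e : ℕ)) (scl (q * e) Θ) ρ).card : ℝ)| ≤
    F * α ^ 3 * ((bohr N Θ ρY).card : ℝ) *
      ((bohr (N / (q * e : ℕ)) (scl (q * e) Θ) ρ).card : ℝ)) →
  |∑ x ∈ (Finset.Icc (1 : ℤ) (⌊N / q⌋₊ : ℤ)).filter (fun x => (e : ℤ) ∣ x - s),
      bet K r (insert (1 / (4 * N)) Θ) ((q : ℝ) * x) * TT A x₀ (bohr N Θ ρY) (q * x) -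
    α ^ 3 * ((bohr N Θ ρY).card : ℝ) *
      cls (fun x => bet K r (insert (1 / (4 * N)) Θ) ((q : ℝ) * x)) ⌊N / q⌋₊ e s| ≤
  ((bohr N Θ ρY).card : ℝ) *
    ((F * α ^ 3 + 200 * r * K * (Θ.card + 1) * ρ) *
      cls (fun x => bet K r (insert (1 / (4 * N)) Θ) ((q : ℝ) * x)) ⌊N / q⌋₊ e s +
    8 * (1 / 4) ^ r * (N / (q * e) + 1))

end Pool.Agent.APP
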